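import Mathlib

set_option autoImplicit false

namespace Crux

open Finset

variable {V : Type*} [DecidableEq V]

open Classical in
/-- number of ordered adjacent pairs inside `S` (twice the number of edges) -/
noncomputable def A (G : SimpleGraph V) (S : Finset V) : ℕ :=
  ((S ×ˢ S).filter (fun p => G.Adj p.1 p.2)).card

/-- restriction of `G` to the vertex set `W` (as a graph on `V`) -/
def Rs (G : SimpleGraph V) (W : Finset V) : SimpleGraph V where
  Adj u v := G.Adj u v ∧ u ∈ W ∧ v ∈ W
  symm := ⟨fun _ _ h => ⟨h.1.symm, h.2.2, h.2.1⟩⟩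
  loopless := ⟨fun _ h => G.loopless.irrefl _ h.1⟩

/-- vertex sets of cycles of `G` -/
def cyc (G : SimpleGraph V) : Set (Finset V) :=
  {U | ∃ u : V, ∃ p : G.Walk u u, p.IsCycle ∧ p.support.toFinset = U}

open Classical in
/-- vertex sets of cycles of `G` contained in `X` -/
noncomputable def cycIn (G : SimpleGraph V) (X : Finset V) : Finset (Finset V) :=
  X.powerset.filter (fun U => U ∈ cyc G)

/-- weight of `W ⊆ X` : each vertex of `X` is kept with probability `p` -/
noncomputable def wt (p : ℝ) (X W : Finset V) : ℝ := p ^ W.card * (1 - p) ^ (X.card - W.card)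

/-- the density threshold -/
noncomputable def theta (m : ℕ) : ℝ := (1 - 1 / (2 * (Nat.log 2 m : ℝ))) / 2

open Classical in
/-- degree of `v` into `S` -/
noncomputable def dg (G : SimpleGraph V) (S : Finset V) (v : V) : ℕ :=
  (S.filter (fun u => G.Adj v u)).card

/-- `G` with the edges inside `H` removed, and only edges inside `S` kept -/
def Hf (G : SimpleGraph V) (S H : Finset V) : SimpleGraph V where
  Adj u v := G.Adj u v ∧ u ∈ S ∧ v ∈ S ∧ ¬ (u ∈ H ∧ v ∈ H)
  symm := ⟨fun _ _ h => ⟨h.1.symm, h.2.2.1, h.2.1, fun h' => h.2.2.2 ⟨h'.2, h'.1⟩⟩⟩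
  loopless := ⟨fun _ h => G.loopless.irrefl _ h.1⟩

end Crux
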