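import Mathlib
import Pool.Agent.Helper343.Crux.Base

set_option autoImplicit false

namespace Crux

open Finset

variable {V : Type*} [DecidableEq V]



/-! TARGET: prove these (keep the statements; add helper lemmas freely) -/

/-- walk along a list to its head -/
theorem walk_to_head (G : SimpleGraph V) : ∀ (Q : List V) (a : V),
    (a :: Q).IsChain G.Adj → (a :: Q).Nodup → ∀ (i : ℕ) (hi : i < (a :: Q).length),
    ∃ w : G.Walk ((a :: Q)[i]) a, w.IsPath ∧ w.length = i ∧ ∀ v ∈ w.support, v ∈ a :: Q := by
  intro Q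
  induction Q with
  | nil =>
    intro a _ _ i hi
    have h0 : i = 0 := by simpa using hi
    subst h0
    exact ⟨SimpleGraph.Walk.nil, SimpleGraph.Walk.IsPath.nil, rfl, by simp⟩
  | cons b Q ih =>
    intro a hc hn i hi
    cases i with
    | zero => exact ⟨SimpleGraph.Walk.nil, SimpleGraph.Walk.IsPath.nil, rfl, by simp⟩
    | succ i =>
      have hc' : G.Adj a b ∧ (b :: Q).IsChain G.Adj := by
        simpa [List.isChain_cons_cons] using hc
      have hn' := List.nodup_cons.1 hn
      obtain ⟨w, hw1, hw2, hw3⟩ := ih b hc'.2 hn'.2 i (by simpa using hi)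
      refine ⟨w.concat hc'.1.symm, ?_, ?_, ?_⟩
      · exact (SimpleGraph.Walk.concat_isPath_iff _).2 ⟨hw1, fun h => hn'.1 (hw3 a h)⟩
      · rw [SimpleGraph.Walk.length_concat, hw2]
      · intro v hv
        rw [SimpleGraph.Walk.support_concat] at hv
        rcases List.mem_append.1 hv with h | h
        · exact List.mem_cons_of_mem _ (hw3 v h)
        · have : v = a := by simpa using h
          rw [this]
          exact List.mem_cons_self

theorem Rs_support (G : SimpleGraph V) (X : Finset V) {u v : V} (w : (Rs G X).Walk u v) :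
    u ∈ X → ∀ z ∈ w.support, z ∈ X := by
  induction w with
  | nil =>
    intro hu z hz
    rw [SimpleGraph.Walk.support_nil, List.mem_singleton] at hz
    rw [hz]
    exact hu
  | cons h p ih =>
    intro hu z hz
    rw [SimpleGraph.Walk.support_cons, List.mem_cons] at hz
    rcases hz with rfl | hz
    · exact hu
    · exact ih h.2.2 z hz

/-- no long cycles: back edges reach only the first `k` vertices of the path -/
theorem back_edge (G : SimpleGraph V) (k : ℕ) (hk : 3 ≤ k)
    (hno : ∀ (u : V) (p : G.Walk u u), p.IsCycle → p.length < k)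
    (X : Finset V) (a : V) (Q : List V) (hchain : (a :: Q).IsChain G.Adj) (hnodup : (a :: Q).Nodup)
    (hdisj : ∀ v ∈ X, v ∉ a :: Q) (x y : V) (hx : x ∈ X) (hy : y ∈ X) (hay : G.Adj a y)
    (hr : (Rs G X).Reachable x y) (b : V) (hb : b ∈ a :: Q) (hxb : G.Adj x b) :
    b ∈ (a :: Q).take k := by
  obtain ⟨i, hi, rfl⟩ := List.getElem_of_mem hb
  by_contra hnot
  have hik : k ≤ i := by
    by_contra hlt
    rw [not_le] at hlt
    apply hnot
    rw [List.mem_take_iff_getElem]
    exact ⟨i, by omega, rfl⟩
  obtain ⟨w2, hw2p, hw2l, hw2s⟩ := walk_to_head G Q a hchain hnodup i hi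
  obtain ⟨w1, hw1p⟩ := hr.symm.exists_isPath
  have hle : Rs G X ≤ G := fun _ _ h => h.1
  have hs1 := Rs_support G X w1 hy
  have hsup : (w1.mapLe hle).support = w1.support := by simp
  have hP : ((w1.mapLe hle).append (SimpleGraph.Walk.cons hxb w2)).IsPath := by
    rw [SimpleGraph.Walk.isPath_def, SimpleGraph.Walk.support_append,
      SimpleGraph.Walk.support_cons, List.tail_cons, hsup, List.nodup_append]
    refine ⟨hw1p.support_nodup, hw2p.support_nodup, ?_⟩
    intro z hz z' hz' he
    subst he
    exact hdisj z (hs1 z hz) (hw2s z hz')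
  have haX : a ∉ X := fun h => hdisj a h List.mem_cons_self
  have hyL : y ∉ a :: Q := hdisj y hy
  have hne : s(a, y) ∉ ((w1.mapLe hle).append (SimpleGraph.Walk.cons hxb w2)).edges := by
    rw [SimpleGraph.Walk.edges_append, SimpleGraph.Walk.edges_cons]
    intro h
    rcases List.mem_append.1 h with h | h
    · have h1 := SimpleGraph.Walk.fst_mem_support_of_mem_edges _ h
      rw [hsup] at h1
      exact haX (hs1 a h1)
    · rcases List.mem_cons.1 h with h | h
      · rw [Sym2.eq_iff] at h
        rcases h with ⟨h1, _⟩ | ⟨h1, h2⟩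
        · exact haX (h1 ▸ hx)
        · have h3 : (a :: Q)[i] = (a :: Q)[0] := by simpa using h1.symm
          have h4 := (hnodup.getElem_inj_iff).1 h3
          omega
      · have h1 := SimpleGraph.Walk.snd_mem_support_of_mem_edges _ h
        exact hyL (hw2s y h1)
  have hcyc : (SimpleGraph.Walk.cons hay
      ((w1.mapLe hle).append (SimpleGraph.Walk.cons hxb w2))).IsCycle :=
    (SimpleGraph.Walk.cons_isCycle_iff _ _).2 ⟨hP, hne⟩
  have hlen := hno _ _ hcyc
  rw [SimpleGraph.Walk.length_cons, SimpleGraph.Walk.length_append,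
    SimpleGraph.Walk.length_cons, hw2l] at hlen
  omega


end Crux
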