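import Mathlib
import Pool.Agent.Helper343.Crux.Base

set_option autoImplicit false

namespace Crux

open Finset

variable {V : Type*} [DecidableEq V]



/-! TARGET: prove these (keep the statements; add helper lemmas freely) -/

theorem split_one_aux (G : SimpleGraph V) (X C : Finset V) (r : V)
    (hC : ∀ x, x ∈ C ↔ x ∈ X ∧ (Rs G X).Reachable r x) :
    ∀ (y x : V) (p : (Rs G X).Walk y x), (Rs G X).Reachable r y → y ∈ X → r ∉ p.support →
      y ∈ C.erase r ∧ (Rs G (C.erase r)).Reachable y x := by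
  intro y x p
  induction p with
  | nil =>
    rename_i u
    intro hr hu hs
    rw [SimpleGraph.Walk.support_nil, List.mem_singleton] at hs
    exact ⟨Finset.mem_erase.mpr ⟨fun h => hs h.symm, (hC u).mpr ⟨hu, hr⟩⟩,
      SimpleGraph.Reachable.refl _⟩
  | cons h p ih =>
    rename_i u v w
    intro hr hu hs
    rw [SimpleGraph.Walk.support_cons, List.mem_cons, not_or] at hs
    have h1 := ih (hr.trans h.reachable) h.2.2 hs.2
    have hu' : u ∈ C.erase r :=
      Finset.mem_erase.mpr ⟨fun h => hs.1 h.symm, (hC u).mpr ⟨hu, hr⟩⟩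
    refine ⟨hu', ?_⟩
    have hadj : (Rs G (C.erase r)).Adj u v := ⟨h.1, hu', h1.1⟩
    exact hadj.reachable.trans h1.2

theorem split_one (G : SimpleGraph V) (X C : Finset V) (r : V) (hr : r ∈ X)
    (hC : ∀ x, x ∈ C ↔ x ∈ X ∧ (Rs G X).Reachable r x) (x : V) (hx : x ∈ C.erase r) :
    ∃ y ∈ C.erase r, G.Adj r y ∧ (Rs G (C.erase r)).Reachable x y := by
  obtain ⟨hxr, hxC⟩ := Finset.mem_erase.mp hx
  obtain ⟨hxX, hrx⟩ := (hC x).mp hxC
  obtain ⟨p, hp⟩ := hrx.exists_isPath
  cases p with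
  | nil => exact absurd rfl hxr
  | cons h p' =>
    rename_i y
    rw [SimpleGraph.Walk.cons_isPath_iff] at hp
    obtain ⟨h1, h2⟩ := split_one_aux G X C r hC y x p' h.reachable h.2.2 hp.2
    exact ⟨y, h1, h.1, h2.symm⟩


end Crux
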