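import Mathlib
import Pool.Agent.Helper343.Crux.Base

set_option autoImplicit false

namespace Crux

open Finset

variable {V : Type*} [DecidableEq V]



/-! TARGET: prove these (keep the statements; add helper lemmas freely) -/

theorem split_two (G : SimpleGraph V) (X C : Finset V) (r : V) (hr : r ∈ X)
    (hC : ∀ x, x ∈ C ↔ x ∈ X ∧ (Rs G X).Reachable r x) (x y : V) (hx : x ∈ X \ C)
    (hy : y ∈ X) (hxy : (Rs G X).Reachable x y) :
    y ∈ X \ C ∧ (Rs G (X \ C)).Reachable x y := by
  have key : ∀ a b : V, a ∈ X \ C → b ∈ X → (Rs G X).Reachable a b → b ∈ X \ C := by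
    intro a b ha hb hab
    rw [mem_sdiff] at ha ⊢
    refine ⟨hb, fun hbC => ha.2 ?_⟩
    rw [hC] at hbC ⊢
    exact ⟨ha.1, hbC.2.trans hab.symm⟩
  refine ⟨key x y hx hy hxy, ?_⟩
  obtain ⟨p⟩ := hxy
  induction p with
  | nil => exact SimpleGraph.Reachable.refl _
  | @cons u v w h p ih =>
    have hv : v ∈ X \ C := key u v hx h.2.2 h.reachable
    have hadj : (Rs G (X \ C)).Adj u v := ⟨h.1, hx, hv⟩
    exact hadj.reachable.trans (ih hv hy)


end Crux
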