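import Mathlib
import Pool.Agent.Helper343.Crux.Base
import Pool.Agent.Helper343.Crux.J1
import Pool.Agent.Helper343.Crux.J2
import Pool.Agent.Helper343.Crux.J3

set_option autoImplicit false

namespace Crux

open Finset

variable {V : Type*} [DecidableEq V]

/-- cover lemma, recursive form. `Q` is the current path (head = last vertex), `X` the set hanging below it. -/
theorem cover_rec (G : SimpleGraph V) (k q : ℕ) (hk : 3 ≤ k) (hkq : k ≤ q)
    (hno : ∀ (u : V) (p : G.Walk u u), p.IsCycle → p.length < k) :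
    ∀ (m : ℕ) (X : Finset V) (Q : List V), X.card = m → Q.IsChain G.Adj → Q.Nodup →
    (∀ v ∈ X, v ∉ Q) → (∀ x ∈ X, ∀ y, G.Adj x y → y ∉ X → y ∈ Q) →
    (∀ a, Q.head? = some a → ∀ x ∈ X, ∃ y ∈ X, G.Adj a y ∧ (Rs G X).Reachable x y) →
    ∃ (P : List (Finset V)) (R : Finset V), R ⊆ X ∧ R.card < q ∧ (∀ Y ∈ P, Y.card ≤ 3 * q) ∧
      ((P.map Finset.card).sum : ℝ) ≤ (1 + (k : ℝ) / q) * ((X \ R).card : ℝ) ∧
      (∀ x ∈ X \ R, ∀ y, G.Adj x y → ∃ Y ∈ P, x ∈ Y ∧ y ∈ Y) := by
  classical
  intro m
  induction m using Nat.strong_induction_on with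
  | _ m ih =>
  intro X Q hm hQc hQn hdisj hN hreach
  have hq : 0 < q := by omega
  have hqR : (0:ℝ) < q := by exact_mod_cast hq
  by_cases hX : X = ∅
  · subst hX
    refine ⟨[], ∅, by simp, by simpa using hq, by simp, by simp, by simp⟩
  · obtain ⟨r, hrX, hrQ⟩ : ∃ r ∈ X, ∀ a, Q.head? = some a → G.Adj a r := by
      obtain ⟨x, hx⟩ := Finset.nonempty_iff_ne_empty.mpr hX
      cases hQ : Q.head? with
      | none => exact ⟨x, hx, by simp⟩
      | some a =>
        obtain ⟨y, hy, hay, -⟩ := hreach a hQ x hx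
        exact ⟨y, hy, by intro b hb; simp at hb; subst hb; exact hay⟩
    obtain ⟨C, hC⟩ : ∃ C : Finset V, ∀ x, x ∈ C ↔ x ∈ X ∧ (Rs G X).Reachable r x :=
      ⟨X.filter (fun x => (Rs G X).Reachable r x), by intro x; simp⟩
    have hCX : C ⊆ X := fun x hx => ((hC x).1 hx).1
    have hrC : r ∈ C := (hC r).2 ⟨hrX, SimpleGraph.Reachable.refl r⟩
    have hcardC : (C.erase r).card < m := by
      rw [← hm]
      calc (C.erase r).card < C.card := Finset.card_erase_lt_of_mem hrC
        _ ≤ X.card := Finset.card_le_card hCX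
    have hcardX : (X \ C).card < m := by
      rw [← hm]
      apply Finset.card_lt_card
      refine ⟨Finset.sdiff_subset, fun h => ?_⟩
      have := h hrX
      simp [hrC] at this
    -- vertices of C have neighbours in X inside C
    have hCN : ∀ x ∈ C, ∀ y ∈ X, G.Adj x y → y ∈ C := by
      intro x hx y hy hxy
      rw [hC] at hx ⊢
      refine ⟨hy, hx.2.trans ?_⟩
      exact (show (Rs G X).Adj x y from ⟨hxy, hx.1, hy⟩).reachable
    have hchain1 : (r :: Q).IsChain G.Adj := by
      cases Q with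
      | nil => simp
      | cons a Q' =>
        rw [List.isChain_cons_cons]
        exact ⟨(hrQ a rfl).symm, hQc⟩
    have hnodup1 : (r :: Q).Nodup := List.nodup_cons.mpr ⟨hdisj r hrX, hQn⟩
    obtain ⟨P1, R1, hR1, hR1c, hP1, hs1, hcov1⟩ := ih _ hcardC (C.erase r) (r :: Q) rfl hchain1 hnodup1
      (by
        intro v hv
        rw [List.mem_cons]
        rintro (h | h)
        · exact (Finset.ne_of_mem_erase hv) h
        · exact hdisj v (hCX (Finset.mem_of_mem_erase hv)) h)
      (by
        intro x hx y hxy hy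
        have hxC := Finset.mem_of_mem_erase hx
        by_cases hyX : y ∈ X
        · have := hCN x hxC y hyX hxy
          by_cases hyr : y = r
          · simp [hyr]
          · exact absurd (Finset.mem_erase.mpr ⟨hyr, this⟩) hy
        · exact List.mem_cons_of_mem _ (hN x (hCX hxC) y hxy hyX))
      (by
        intro a ha x hx
        simp at ha
        subst ha
        exact split_one G X C r hrX hC x hx)
    obtain ⟨P2, R2, hR2, hR2c, hP2, hs2, hcov2⟩ := ih _ hcardX (X \ C) Q rfl hQc hQn
      (by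
        intro v hv
        exact hdisj v (Finset.sdiff_subset hv))
      (by
        intro x hx y hxy hy
        have hxX := Finset.sdiff_subset hx
        by_cases hyX : y ∈ X
        · exfalso
          have hyC : y ∈ C := by
            by_contra h
            exact hy (Finset.mem_sdiff.mpr ⟨hyX, h⟩)
          have := hCN y hyC x hxX hxy.symm
          exact (Finset.mem_sdiff.mp hx).2 this
        · exact hN x hxX y hxy hyX)
      (by
        intro a ha x hx
        obtain ⟨y, hy, hay, hxy⟩ := hreach a ha x (Finset.sdiff_subset hx)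
        obtain ⟨h1, h2⟩ := split_two G X C r hrX hC x y hx hy hxy
        exact ⟨y, h1, hay, h2⟩)
    set R' := insert r (R1 ∪ R2) with hR'
    have hR1C : R1 ⊆ C := hR1.trans (Finset.erase_subset _ _)
    have hR'X : R' ⊆ X := by
      rw [hR']
      intro v hv
      simp only [Finset.mem_insert, Finset.mem_union] at hv
      rcases hv with h | h | h
      · exact h ▸ hrX
      · exact hCX (hR1C h)
      · exact Finset.sdiff_subset (hR2 h)
    have hmemXR : ∀ v, v ∈ X \ R' ↔ v ∈ C.erase r \ R1 ∨ v ∈ (X \ C) \ R2 := by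
      intro v
      simp only [hR', Finset.mem_sdiff, Finset.mem_insert, Finset.mem_union, Finset.mem_erase]
      constructor
      · rintro ⟨h1, h2⟩
        push Not at h2
        by_cases hvC : v ∈ C
        · exact Or.inl ⟨⟨h2.1, hvC⟩, h2.2.1⟩
        · exact Or.inr ⟨⟨h1, hvC⟩, h2.2.2⟩
      · rintro (⟨⟨h1, h2⟩, h3⟩ | ⟨⟨h1, h2⟩, h3⟩)
        · refine ⟨hCX h2, ?_⟩
          push Not
          refine ⟨h1, h3, fun h => ?_⟩
          exact (Finset.mem_sdiff.mp (hR2 h)).2 h2
        · refine ⟨h1, ?_⟩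
          push Not
          refine ⟨fun h => h2 (h ▸ hrC), fun h => h2 (hR1C h), h3⟩
    have hXR : X \ R' = (C.erase r \ R1) ∪ ((X \ C) \ R2) := by
      ext v; rw [hmemXR, Finset.mem_union]
    have hdis : Disjoint (C.erase r \ R1) ((X \ C) \ R2) := by
      rw [Finset.disjoint_left]
      intro v h1 h2
      have h3 := Finset.mem_of_mem_erase (Finset.sdiff_subset h1)
      have h4 := Finset.sdiff_subset h2
      exact (Finset.mem_sdiff.mp h4).2 h3
    have hcardXR : (X \ R').card = (C.erase r \ R1).card + ((X \ C) \ R2).card := by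
      rw [hXR, Finset.card_union_of_disjoint hdis]
    have hcov12 : ∀ x ∈ X \ R', ∀ y, G.Adj x y → ∃ Y ∈ P1 ++ P2, x ∈ Y ∧ y ∈ Y := by
      intro x hx y hxy
      rw [hmemXR] at hx
      rcases hx with hx | hx
      · obtain ⟨Y, hY, h⟩ := hcov1 x hx y hxy
        exact ⟨Y, List.mem_append_left _ hY, h⟩
      · obtain ⟨Y, hY, h⟩ := hcov2 x hx y hxy
        exact ⟨Y, List.mem_append_right _ hY, h⟩
    have hs12 : (((P1 ++ P2).map Finset.card).sum : ℝ) ≤ (1 + (k : ℝ) / q) * ((X \ R').card : ℝ) := by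
      rw [List.map_append, List.sum_append, hcardXR]
      push_cast
      push_cast at hs1 hs2
      linarith
    have hP12 : ∀ Y ∈ P1 ++ P2, Y.card ≤ 3 * q := by
      intro Y hY
      rcases List.mem_append.mp hY with h | h
      · exact hP1 Y h
      · exact hP2 Y h
    by_cases hc : R'.card < q
    · exact ⟨P1 ++ P2, R', hR'X, hc, hP12, hs12, hcov12⟩
    · push Not at hc
      set Z := R' ∪ (Q.take k).toFinset with hZ
      have hR'card : R'.card ≤ 2 * q := by
        rw [hR']
        calc (insert r (R1 ∪ R2)).card ≤ (R1 ∪ R2).card + 1 := Finset.card_insert_le _ _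
          _ ≤ R1.card + R2.card + 1 := by have := Finset.card_union_le R1 R2; omega
          _ ≤ 2 * q := by omega
      have htake : (Q.take k).toFinset.card ≤ k :=
        (List.toFinset_card_le _).trans (by simp)
      have hZc : Z.card ≤ R'.card + k := by
        rw [hZ]
        exact (Finset.card_union_le _ _).trans (by omega)
      refine ⟨Z :: (P1 ++ P2), ∅, by simp, by simpa using hq, ?_, ?_, ?_⟩
      · intro Y hY
        rcases List.mem_cons.mp hY with h | h
        · rw [h]; omega
        · exact hP12 Y h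
      · have h1 : (X \ ∅).card = (X \ R').card + R'.card := by
          rw [Finset.sdiff_empty, Finset.card_sdiff_add_card_eq_card hR'X]
        rw [h1, List.map_cons, List.sum_cons]
        have h2 : (k : ℝ) ≤ (k : ℝ) / q * R'.card := by
          rw [div_mul_eq_mul_div, le_div_iff₀ hqR]
          have : (q : ℝ) ≤ R'.card := by exact_mod_cast hc
          exact mul_le_mul_of_nonneg_left this (by positivity)
        have h3 : (Z.card : ℝ) ≤ R'.card + k := by exact_mod_cast hZc
        push_cast
        push_cast at hs12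
        linarith
      · intro x hx y hxy
        rw [Finset.sdiff_empty] at hx
        by_cases hxR : x ∈ R'
        · by_cases hyR : y ∈ R'
          · exact ⟨Z, List.mem_cons_self, Finset.mem_union_left _ hxR, Finset.mem_union_left _ hyR⟩
          · by_cases hyX : y ∈ X
            · obtain ⟨Y, hY, h1, h2⟩ := hcov12 y (Finset.mem_sdiff.mpr ⟨hyX, hyR⟩) x hxy.symm
              exact ⟨Y, List.mem_cons_of_mem _ hY, h2, h1⟩
            · have hyQ := hN x hx y hxy hyX
              refine ⟨Z, List.mem_cons_self, Finset.mem_union_left _ hxR, Finset.mem_union_right _ ?_⟩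
              rw [List.mem_toFinset]
              cases hQ : Q with
              | nil => rw [hQ] at hyQ; simp at hyQ
              | cons a Q' =>
                obtain ⟨z, hz, haz, hxz⟩ := hreach a (by rw [hQ]; rfl) x hx
                subst hQ
                exact back_edge G k hk hno X a Q' hQc hQn hdisj x z hx hz haz hxz y hyQ hxy
        · obtain ⟨Y, hY, h⟩ := hcov12 x (Finset.mem_sdiff.mpr ⟨hx, hxR⟩) y hxy
          exact ⟨Y, List.mem_cons_of_mem _ hY, h⟩

/-- cover lemma: a graph without cycles of length `≥ k` is covered by small sets of total size `≤ (1+k/q)|W|` -/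
theorem cover (F : SimpleGraph V) (W : Finset V) (hF : ∀ u v, F.Adj u v → u ∈ W ∧ v ∈ W)
    (k q : ℕ) (hk : 3 ≤ k) (hkq : k ≤ q)
    (hno : ∀ (u : V) (p : F.Walk u u), p.IsCycle → p.length < k) :
    ∃ P : List (Finset V), (∀ Y ∈ P, Y.card ≤ 3 * q) ∧
      ((P.map Finset.card).sum : ℝ) ≤ (1 + (k : ℝ) / q) * (W.card : ℝ) ∧
      (∀ x y, F.Adj x y → ∃ Y ∈ P, x ∈ Y ∧ y ∈ Y) := by
  classical
  obtain ⟨P, R, hR, hRc, hP, hs, hcov⟩ := cover_rec F k q hk hkq hno _ W [] rfl (by simp) (by simp)
    (by simp) (by intro x hx y hxy hy; exact absurd (hF x y hxy).2 hy) (by simp)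
  refine ⟨R :: P, ?_, ?_, ?_⟩
  · intro Y hY
    rcases List.mem_cons.mp hY with h | h
    · rw [h]; omega
    · exact hP Y h
  · have h1 : (W.card : ℝ) = (W \ R).card + R.card := by
      exact_mod_cast (Finset.card_sdiff_add_card_eq_card hR).symm
    rw [List.map_cons, List.sum_cons, h1]
    push_cast
    push_cast at hs
    have h2 : (0:ℝ) ≤ (k : ℝ) / q * R.card := by positivity
    linarith
  · intro x y hxy
    by_cases hx : x ∈ R
    · by_cases hy : y ∈ R
      · exact ⟨R, List.mem_cons_self, hx, hy⟩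
      · obtain ⟨Y, hY, h1, h2⟩ := hcov y (Finset.mem_sdiff.mpr ⟨(hF x y hxy).2, hy⟩) x hxy.symm
        exact ⟨Y, List.mem_cons_of_mem _ hY, h2, h1⟩
    · obtain ⟨Y, hY, h⟩ := hcov x (Finset.mem_sdiff.mpr ⟨(hF x y hxy).1, hx⟩) y hxy
      exact ⟨Y, List.mem_cons_of_mem _ hY, h⟩

/-- density forces long cycles -/
theorem long_cycle (F : SimpleGraph V) (W : Finset V) (hF : ∀ u v, F.Adj u v → u ∈ W ∧ v ∈ W)
    (k q : ℕ) (hk : 3 ≤ k) (hkq : k ≤ q) (lam : ℝ)
    (hlam : 0 ≤ lam)
    (hY : ∀ Y : Finset V, Y.card ≤ 3 * q → (A F Y : ℝ) ≤ lam * Y.card)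
    (hW : lam * (1 + (k : ℝ) / q) * W.card < A F W) :
    ∃ (u : V) (p : F.Walk u u), p.IsCycle ∧ k ≤ p.length := by
  classical
  by_contra hcon
  push Not at hcon
  obtain ⟨P, hP, hs, hcov⟩ := cover F W hF k q hk hkq hcon
  -- A F W ≤ ∑ A F Y
  have h1 : ∀ P : List (Finset V), (∀ Y ∈ P, Y.card ≤ 3 * q) →
      ∀ E : Finset (V × V), (∀ e ∈ E, F.Adj e.1 e.2 ∧ ∃ Y ∈ P, e.1 ∈ Y ∧ e.2 ∈ Y) →
      (E.card : ℝ) ≤ lam * ((P.map Finset.card).sum : ℝ) := by
    intro P
    induction P with
    | nil =>
      intro _ E hE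
      have : E = ∅ := by
        rw [Finset.eq_empty_iff_forall_notMem]
        intro e he
        obtain ⟨-, Y, hY, -⟩ := hE e he
        simp at hY
      simp [this]
    | cons Z P ihP =>
      intro hP E hE
      have h2 : E ⊆ (E.filter (fun e => e.1 ∈ Z ∧ e.2 ∈ Z)) ∪ (E.filter (fun e => ¬ (e.1 ∈ Z ∧ e.2 ∈ Z))) := by
        rw [Finset.filter_union_filter_not_eq]
      have h3 := Finset.card_le_card h2
      have h4 := Finset.card_union_le (E.filter (fun e => e.1 ∈ Z ∧ e.2 ∈ Z)) (E.filter (fun e => ¬ (e.1 ∈ Z ∧ e.2 ∈ Z)))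
      have h5 : (E.filter (fun e => e.1 ∈ Z ∧ e.2 ∈ Z)).card ≤ A F Z := by
        unfold A
        apply Finset.card_le_card
        intro e he
        rw [Finset.mem_filter] at he ⊢
        refine ⟨Finset.mem_product.mpr he.2, (hE e he.1).1⟩
      have h6 := ihP (fun Y hY => hP Y (List.mem_cons_of_mem _ hY)) (E.filter (fun e => ¬ (e.1 ∈ Z ∧ e.2 ∈ Z)))
        (by
          intro e he
          rw [Finset.mem_filter] at he
          obtain ⟨h7, Y, hY, h8⟩ := hE e he.1
          refine ⟨h7, Y, ?_, h8⟩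
          rcases List.mem_cons.mp hY with h | h
          · subst h; exact absurd h8 he.2
          · exact h)
      have h7 := hY Z (hP Z List.mem_cons_self)
      have h8 : (E.card : ℝ) ≤ (A F Z : ℝ) + (E.filter (fun e => ¬ (e.1 ∈ Z ∧ e.2 ∈ Z))).card := by
        exact_mod_cast (h3.trans h4).trans (Nat.add_le_add_right h5 _)
      rw [List.map_cons, List.sum_cons]
      push_cast
      push_cast at h6
      linarith
  have h2 := h1 P hP ((W ×ˢ W).filter (fun p => F.Adj p.1 p.2)) (by
    intro e he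
    rw [Finset.mem_filter] at he
    exact ⟨he.2, hcov _ _ he.2⟩)
  have h3 : (A F W : ℝ) ≤ lam * ((P.map Finset.card).sum : ℝ) := h2
  have h4 : lam * ((P.map Finset.card).sum : ℝ) ≤ lam * ((1 + (k : ℝ) / q) * (W.card : ℝ)) :=
    mul_le_mul_of_nonneg_left hs hlam
  linarith

end Crux
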