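import Mathlib
import Pool.Agent.Helper343.Crux.Base

set_option autoImplicit false

namespace Crux

open Finset

variable {V : Type*} [DecidableEq V]



/-! TARGET: prove these (keep the statements; add helper lemmas freely) -/

theorem wt_sup (p : ℝ) (X U : Finset V) (hU : U ⊆ X) :
    ∑ W ∈ X.powerset with U ⊆ W, wt p X W = p ^ U.card := by
  have h : ∑ W ∈ X.powerset with U ⊆ W, wt p X W =
      ∑ W ∈ (X \ U).powerset, p ^ U.card * (p ^ W.card * (1 - p) ^ ((X \ U).card - W.card)) := by
    refine Finset.sum_nbij' (fun W => W \ U) (fun W => U ∪ W) ?_ ?_ ?_ ?_ ?_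
    · intro W hW
      simp only [mem_filter, mem_powerset] at hW ⊢
      exact Finset.sdiff_subset_sdiff hW.1 (Finset.Subset.refl U)
    · intro W hW
      simp only [mem_filter, mem_powerset] at hW ⊢
      exact ⟨Finset.union_subset hU (hW.trans Finset.sdiff_subset), Finset.subset_union_left⟩
    · intro W hW
      simp only [mem_filter, mem_powerset] at hW
      exact Finset.union_sdiff_of_subset hW.2
    · intro W hW
      simp only [mem_powerset] at hW
      rw [Finset.union_sdiff_left]
      refine Finset.sdiff_eq_self_of_disjoint ?_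
      exact Finset.disjoint_of_subset_left hW Finset.sdiff_disjoint
    · intro W hW
      simp only [mem_filter, mem_powerset] at hW
      have h1 : (W \ U).card = W.card - U.card := Finset.card_sdiff_of_subset hW.2
      have h2 : (X \ U).card = X.card - U.card := Finset.card_sdiff_of_subset hU
      have h3 : U.card ≤ W.card := Finset.card_le_card hW.2
      have h4 : W.card ≤ X.card := Finset.card_le_card hW.1
      have h5 : (X \ U).card - (W \ U).card = X.card - W.card := by omega
      rw [h5, ← mul_assoc, ← pow_add, wt]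
      congr 2
      omega
  rw [h, ← Finset.mul_sum, Finset.sum_pow_mul_eq_add_pow]
  simp

theorem wt_card (p : ℝ) (X : Finset V) :
    ∑ W ∈ X.powerset, wt p X W * (W.card : ℝ) = p * X.card := by
  have h : ∀ W ∈ X.powerset, wt p X W * (W.card : ℝ) =
      ∑ u ∈ X, if {u} ⊆ W then wt p X W else 0 := by
    intro W hW
    rw [mem_powerset] at hW
    rw [← Finset.sum_filter, Finset.sum_const, nsmul_eq_mul, mul_comm]
    congr 2
    congr 1
    ext u
    simp only [mem_filter, Finset.singleton_subset_iff]
    exact ⟨fun h => ⟨hW h, h⟩, fun h => h.2⟩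
  rw [Finset.sum_congr rfl h, Finset.sum_comm]
  have h2 : ∀ u ∈ X, (∑ W ∈ X.powerset, if {u} ⊆ W then wt p X W else 0) = p := by
    intro u hu
    rw [← Finset.sum_filter, wt_sup p X {u} (by simpa using hu)]
    simp
  rw [Finset.sum_congr rfl h2, Finset.sum_const, nsmul_eq_mul, mul_comm]

theorem wt_A (G : SimpleGraph V) (p : ℝ) (X : Finset V) :
    ∑ W ∈ X.powerset, wt p X W * (A G W : ℝ) = p ^ 2 * A G X := by
  classical
  have h : ∀ W ∈ X.powerset, wt p X W * (A G W : ℝ) =
      ∑ e ∈ (X ×ˢ X).filter (fun p => G.Adj p.1 p.2),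
        if ({e.1, e.2} : Finset V) ⊆ W then wt p X W else 0 := by
    intro W hW
    rw [mem_powerset] at hW
    rw [← Finset.sum_filter, Finset.sum_const, nsmul_eq_mul, mul_comm]
    congr 2
    unfold A
    congr 1
    ext e
    simp only [mem_filter, Finset.mem_product, Finset.insert_subset_iff,
      Finset.singleton_subset_iff]
    exact ⟨fun h => ⟨⟨⟨hW h.1.1, hW h.1.2⟩, h.2⟩, h.1⟩, fun h => ⟨h.2, h.1.2⟩⟩
  rw [Finset.sum_congr rfl h, Finset.sum_comm]
  have h2 : ∀ e ∈ (X ×ˢ X).filter (fun p => G.Adj p.1 p.2),
      (∑ W ∈ X.powerset, if ({e.1, e.2} : Finset V) ⊆ W then wt p X W else 0) = p ^ 2 := by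
    intro e he
    simp only [mem_filter, Finset.mem_product] at he
    rw [← Finset.sum_filter, wt_sup p X {e.1, e.2}
      (by simp only [Finset.insert_subset_iff, Finset.singleton_subset_iff]; exact he.1),
      Finset.card_pair he.2.ne]
  rw [Finset.sum_congr rfl h2, Finset.sum_const, nsmul_eq_mul, mul_comm]
  unfold A
  congr


end Crux
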