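import Mathlib
import Pool.Agent.Helper343.Crux.Base

set_option autoImplicit false

namespace Crux

open Finset

variable {V : Type*} [DecidableEq V]



/-! TARGET: prove these (keep the statements; add helper lemmas freely) -/

theorem A_Rs (G : SimpleGraph V) (X Y : Finset V) : A (Rs G X) Y = A G (Y ∩ X) := by
  classical
  unfold A
  congr 1
  ext p
  rw [Finset.mem_filter, Finset.mem_filter, Finset.mem_product, Finset.mem_product, Finset.mem_inter,
    Finset.mem_inter]
  constructor
  · rintro ⟨⟨h1, h2⟩, h3, h4, h5⟩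
    exact ⟨⟨⟨h1, h4⟩, h2, h5⟩, h3⟩
  · rintro ⟨⟨⟨h1, h4⟩, h2, h5⟩, h3⟩
    exact ⟨⟨h1, h2⟩, h3, h4, h5⟩

theorem A_mono (G : SimpleGraph V) {S T : Finset V} (h : S ⊆ T) : A G S ≤ A G T := by
  classical
  unfold A
  exact Finset.card_le_card (Finset.filter_subset_filter _ (Finset.product_subset_product h h))

theorem A_mono_graph {G G' : SimpleGraph V} (h : G ≤ G') (S : Finset V) : A G S ≤ A G' S := by
  classical
  unfold A
  apply Finset.card_le_card
  intro p hp
  rw [Finset.mem_filter] at hp ⊢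
  exact ⟨hp.1, h hp.2⟩

theorem A_le (G : SimpleGraph V) (S : Finset V) : (A G S : ℝ) ≤ (S.card : ℝ) * (S.card - 1) := by
  classical
  have h1 : A G S ≤ S.offDiag.card := by
    unfold A
    apply Finset.card_le_card
    intro p hp
    rw [Finset.mem_filter, Finset.mem_product] at hp
    rw [Finset.mem_offDiag]
    exact ⟨hp.1.1, hp.1.2, hp.2.ne⟩
  rw [Finset.offDiag_card] at h1
  have h2 : A G S + S.card ≤ S.card * S.card := by
    have : S.card ≤ S.card * S.card := Nat.le_mul_self _
    omega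
  have h3 : (A G S : ℝ) + S.card ≤ S.card * S.card := by exact_mod_cast h2
  linarith

theorem cycIn_mono {G G' : SimpleGraph V} (h : G ≤ G') (S : Finset V) : cycIn G S ⊆ cycIn G' S := by
  classical
  intro U hU
  unfold cycIn at hU ⊢
  rw [Finset.mem_filter] at hU ⊢
  refine ⟨hU.1, ?_⟩
  obtain ⟨u, p, hp, hs⟩ := hU.2
  refine ⟨u, p.mapLe h, hp.mapLe h, ?_⟩
  rw [← hs]
  congr 1
  simp

theorem cycIn_subset (G : SimpleGraph V) {S T : Finset V} (h : S ⊆ T) : cycIn G S ⊆ cycIn G T := by
  classical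
  unfold cycIn
  exact Finset.filter_subset_filter _ (Finset.powerset_mono.2 h)

theorem Rs_le (G : SimpleGraph V) (S : Finset V) : Rs G S ≤ G := by
  intro u v h
  exact h.1

theorem Hf_le (G : SimpleGraph V) (S H : Finset V) : Hf G S H ≤ G := by
  intro u v h
  exact h.1

theorem cycIn_Hf (G : SimpleGraph V) (S H : Finset V) (U : Finset V) (hU : U ∈ cycIn (Hf G S H) S) :
    (U ∩ (S \ H)).Nonempty := by
  classical
  unfold cycIn at hU
  rw [Finset.mem_filter] at hU
  obtain ⟨u, p, hp, hs⟩ := hU.2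
  cases p with
  | nil => exact absurd hp (SimpleGraph.Walk.IsCycle.not_of_nil)
  | @cons _ v _ hadj q =>
    have hu : u ∈ U := by
      rw [← hs]; simp
    have hv : v ∈ U := by
      rw [← hs]; simp
    obtain ⟨_, huS, hvS, hn⟩ := hadj
    by_cases huH : u ∈ H
    · have hvH : v ∉ H := fun h => hn ⟨huH, h⟩
      exact ⟨v, by simp [hv, hvS, hvH]⟩
    · exact ⟨u, by simp [hu, huS, huH]⟩


end Crux
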