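import Mathlib
import Pool.Agent.Helper343.Crux.Base
import Pool.Agent.Helper343.Crux.C1
import Pool.Agent.Helper343.Crux.J4
import Pool.Agent.Helper343.Crux.J9

set_option autoImplicit false

namespace Crux

open Finset

variable {V : Type*} [DecidableEq V]

theorem cycIn_of_cycle (F : SimpleGraph V) (X W : Finset V) (hWX : W ⊆ X) (k : ℕ)
    (u : V) (p : (Rs F W).Walk u u) (hp : p.IsCycle) (hk : k ≤ p.length) :
    ∃ U ∈ cycIn F X, U ⊆ W ∧ k ≤ U.card := by
  classical
  have hu : u ∈ W := by
    cases p with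
    | nil => exact absurd hp (SimpleGraph.Walk.IsCycle.not_of_nil)
    | cons hadj q => exact hadj.2.1
  have hsW : p.support.toFinset ⊆ W := by
    intro v hv
    rw [List.mem_toFinset] at hv
    exact Rs_support F W p hu v hv
  refine ⟨p.support.toFinset, ?_, hsW, ?_⟩
  · unfold cycIn
    rw [Finset.mem_filter, Finset.mem_powerset]
    refine ⟨hsW.trans hWX, ⟨u, p.mapLe (Rs_le F W), hp.mapLe (Rs_le F W), ?_⟩⟩
    simp
  · have h1 : p.support.tail.toFinset ⊆ p.support.toFinset := by
      intro v hv
      rw [List.mem_toFinset] at hv ⊢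
      exact List.mem_of_mem_tail hv
    have h2 : p.support.tail.toFinset.card = p.length := by
      rw [List.toFinset_card_of_nodup hp.support_nodup]
      simp
    calc k ≤ p.length := hk
      _ = p.support.tail.toFinset.card := h2.symm
      _ ≤ _ := Finset.card_le_card h1

theorem wt_nonneg (p : ℝ) (hp0 : 0 ≤ p) (hp1 : p ≤ 1) (X W : Finset V) : 0 ≤ wt p X W := by
  unfold wt
  have : 0 ≤ 1 - p := by linarith
  positivity

/-- random sampling: if `F` (with all edges in `X`) has few edges on small sets and high density,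
then it has many long cycle sets. `x` = deletion probability, `y` = density loss. -/
theorem many_sets (F : SimpleGraph V) (X : Finset V) (hF : ∀ u v, F.Adj u v → u ∈ X ∧ v ∈ X)
    (k q : ℕ) (hk : 3 ≤ k) (hkq : k ≤ q) (lam x y : ℝ) (hlam : 0 ≤ lam) (hx : 0 < x) (hxy : x < y)
    (hy : y < 1)
    (hY : ∀ Y : Finset V, Y.card ≤ 3 * q → (A F Y : ℝ) ≤ lam * Y.card)
    (hX : lam * (1 + (k : ℝ) / q) * X.card ≤ (1 - y) * A F X) (hA : 0 < A F X) :
    (1 - x) * (y - x) ≤ ((cycIn F X).card : ℝ) * (1 - x) ^ k := by
  classical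
  have hXc : 0 < X.card := by
    rw [Finset.card_pos, Finset.nonempty_iff_ne_empty]
    rintro rfl
    simp [A] at hA
  have hXR : (0 : ℝ) < X.card := by exact_mod_cast hXc
  have hAR : (0 : ℝ) < A F X := by exact_mod_cast hA
  have hp0 : 0 ≤ 1 - x := by linarith
  have hp1 : 1 - x ≤ 1 := by linarith
  set good : Finset (Finset V) := X.powerset.filter
    (fun W => (1 - y) * A F X * W.card < X.card * A F W) with hgood
  -- step 1
  have h1 : (1 - x) * (y - x) ≤ ∑ W ∈ good, wt (1 - x) X W := by
    have hZ : ∑ W ∈ X.powerset, wt (1 - x) X W * ((X.card : ℝ) * A F W - (1 - y) * A F X * W.card)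
        = X.card * A F X * ((1 - x) * (y - x)) := by
      have e1 : ∑ W ∈ X.powerset, wt (1 - x) X W * ((X.card : ℝ) * A F W - (1 - y) * A F X * W.card)
          = X.card * ∑ W ∈ X.powerset, wt (1 - x) X W * (A F W : ℝ)
            - (1 - y) * A F X * ∑ W ∈ X.powerset, wt (1 - x) X W * (W.card : ℝ) := by
        rw [Finset.mul_sum, Finset.mul_sum, ← Finset.sum_sub_distrib]
        apply Finset.sum_congr rfl
        intro W _
        ring
      rw [e1, wt_A, wt_card]
      ring
    have hle : ∑ W ∈ X.powerset, wt (1 - x) X W * ((X.card : ℝ) * A F W - (1 - y) * A F X * W.card)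
        ≤ ∑ W ∈ good, wt (1 - x) X W * ((X.card : ℝ) * A F X) := by
      rw [hgood, Finset.sum_filter]
      apply Finset.sum_le_sum
      intro W hW
      have hw := wt_nonneg (1 - x) hp0 hp1 X W
      split_ifs with h
      · apply mul_le_mul_of_nonneg_left _ hw
        have h2 : (A F W : ℝ) ≤ A F X := by
          exact_mod_cast A_mono F (Finset.mem_powerset.mp hW)
        have h3 : 0 ≤ (1 - y) * A F X * W.card := by
          have : 0 ≤ 1 - y := by linarith
          positivity
        have h4 : (X.card : ℝ) * A F W ≤ X.card * A F X := mul_le_mul_of_nonneg_left h2 hXR.le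
        linarith
      · push Not at h
        apply mul_nonpos_of_nonneg_of_nonpos hw
        linarith
    rw [hZ, ← Finset.sum_mul, mul_comm] at hle
    exact le_of_mul_le_mul_right hle (by positivity)
  -- step 2
  have h2 : ∀ W ∈ good, ∃ U ∈ cycIn F X, U ⊆ W ∧ k ≤ U.card := by
    intro W hW
    rw [hgood, Finset.mem_filter, Finset.mem_powerset] at hW
    obtain ⟨hWX, hW⟩ := hW
    have h3 : lam * (1 + (k : ℝ) / q) * W.card < A (Rs F W) W := by
      rw [A_Rs, Finset.inter_self]
      have h4 : lam * (1 + (k : ℝ) / q) * X.card * W.card ≤ (1 - y) * A F X * W.card :=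
        mul_le_mul_of_nonneg_right hX (by positivity)
      have h5 : (X.card : ℝ) * (lam * (1 + (k : ℝ) / q) * W.card) < X.card * A F W := by
        calc (X.card : ℝ) * (lam * (1 + (k : ℝ) / q) * W.card)
            = lam * (1 + (k : ℝ) / q) * X.card * W.card := by ring
          _ ≤ _ := h4
          _ < _ := hW
      exact lt_of_mul_lt_mul_left h5 hXR.le
    obtain ⟨u, p, hp, hkp⟩ := long_cycle (Rs F W) W (fun a b h => ⟨h.2.1, h.2.2⟩) k q hk hkq lam hlam
      (by
        intro Y hYc
        exact le_trans (by exact_mod_cast A_mono_graph (Rs_le F W) Y) (hY Y hYc)) h3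
    exact cycIn_of_cycle F X W hWX k u p hp hkp
  set 𝒰 := (cycIn F X).filter (fun U => k ≤ U.card) with h𝒰
  have h3 : ∑ W ∈ good, wt (1 - x) X W ≤ ∑ U ∈ 𝒰, ∑ W ∈ X.powerset with U ⊆ W, wt (1 - x) X W := by
    calc ∑ W ∈ good, wt (1 - x) X W
        ≤ ∑ W ∈ good, ∑ U ∈ 𝒰, if U ⊆ W then wt (1 - x) X W else 0 := by
          apply Finset.sum_le_sum
          intro W hW
          obtain ⟨U, hU, hUW, hUk⟩ := h2 W hW
          have hmem : U ∈ 𝒰 := by rw [h𝒰, Finset.mem_filter]; exact ⟨hU, hUk⟩
          calc wt (1 - x) X W = if U ⊆ W then wt (1 - x) X W else 0 := by rw [if_pos hUW]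
            _ ≤ _ := Finset.single_le_sum (f := fun U => if U ⊆ W then wt (1 - x) X W else 0)
              (fun U _ => by
                split_ifs
                · exact wt_nonneg (1 - x) hp0 hp1 X W
                · exact le_refl 0) hmem
      _ ≤ ∑ W ∈ X.powerset, ∑ U ∈ 𝒰, if U ⊆ W then wt (1 - x) X W else 0 := by
          apply Finset.sum_le_sum_of_subset_of_nonneg
          · rw [hgood]; exact Finset.filter_subset _ _
          · intro W _ _
            apply Finset.sum_nonneg
            intro U _
            split_ifs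
            · exact wt_nonneg (1 - x) hp0 hp1 X W
            · exact le_refl 0
      _ = _ := by
          rw [Finset.sum_comm]
          apply Finset.sum_congr rfl
          intro U _
          rw [Finset.sum_filter]
  have h4 : ∑ U ∈ 𝒰, ∑ W ∈ X.powerset with U ⊆ W, wt (1 - x) X W ≤ ∑ U ∈ 𝒰, (1 - x) ^ k := by
    apply Finset.sum_le_sum
    intro U hU
    rw [h𝒰, Finset.mem_filter] at hU
    have hUX : U ⊆ X := by
      have := hU.1
      unfold cycIn at this
      exact Finset.mem_powerset.mp (Finset.mem_filter.mp this).1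
    rw [wt_sup (1 - x) X U hUX]
    exact pow_le_pow_of_le_one hp0 hp1 hU.2
  rw [Finset.sum_const, nsmul_eq_mul] at h4
  calc (1 - x) * (y - x) ≤ _ := h1
    _ ≤ _ := h3
    _ ≤ _ := h4
    _ ≤ _ := by
      apply mul_le_mul_of_nonneg_right _ (by positivity)
      exact_mod_cast Finset.card_le_card (Finset.filter_subset _ _)

end Crux
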