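import Mathlib
import Pool.Agent.Helper343.Crux.Base
import Pool.Agent.Helper343.Crux.C2

set_option autoImplicit false

namespace Crux

open Finset

variable {V : Type*} [DecidableEq V]



/-! TARGET: prove these (keep the statements; add helper lemmas freely) -/

theorem place_small (F : SimpleGraph V) (X : Finset V) (hF : ∀ u v, F.Adj u v → u ∈ X ∧ v ∈ X)
    (D : ℝ) (hD : 0 < D) (t : ℕ) (ht : 10 ^ 6 ≤ t)
    (hsmall : ∀ Y : Finset V, Y.card < t → (A F Y : ℝ) ≤ D / 5 * Y.card)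
    (hX : X.Nonempty) (hXm : (X.card : ℝ) ≤ (2 : ℝ) ^ ((t : ℝ) / 200))
    (hd : 9 / 20 * D * X.card ≤ A F X) :
    (2 : ℝ) ^ ((t : ℝ) / 200) * X.card ≤ ((cycIn F X).card : ℝ) := by
  set q : ℕ := (t - 1) / 3 with hq
  set k : ℕ := q / 8 with hk
  have hq1 : 3 * q < t := by omega
  have hk3 : 3 ≤ k := by omega
  have hk1 : 24 * k + 24 ≥ t := by omega
  have hk8 : 8 * k ≤ q := by omega
  have hq0 : (0:ℝ) < q := by
    have : 0 < q := by omega
    exact_mod_cast this
  have hXpos : (0:ℝ) < X.card := by exact_mod_cast hX.card_pos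
  have hApos : (0:ℝ) < A F X := lt_of_lt_of_le (by positivity) hd
  have hkq8 : (k : ℝ) / q ≤ 1 / 8 := by
    rw [div_le_div_iff₀ hq0 (by norm_num)]
    have : (8 * k : ℝ) ≤ q := by exact_mod_cast hk8
    linarith
  have h := many_sets F X hF k q hk3 (by omega) (D / 5) (2 / 5) (1 / 2) (by positivity)
    (by norm_num) (by norm_num) (by norm_num) (fun Y hY => hsmall Y (by omega))
    (by
      have h1 : D / 5 * (1 + (k : ℝ) / q) * X.card ≤ D / 5 * (9 / 8) * X.card := by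
        apply mul_le_mul_of_nonneg_right _ hXpos.le
        apply mul_le_mul_of_nonneg_left _ (by positivity)
        linarith
      nlinarith) (by exact_mod_cast hApos)
  set N : ℝ := ((cycIn F X).card : ℝ) with hN
  have hsq : (2:ℝ) ^ ((1:ℝ) / 2) ≤ 5 / 3 := by
    rw [← Real.sqrt_eq_rpow, Real.sqrt_le_iff]
    norm_num
  have hpow : (2:ℝ) ^ ((1:ℝ) / 2 * k) ≤ (5 / 3) ^ k := by
    rw [Real.rpow_mul (by norm_num), Real.rpow_natCast]
    exact pow_le_pow_left₀ (by positivity) hsq k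
  have h35 : (1 - 2 / 5 : ℝ) ^ k * (5 / 3) ^ k = 1 := by
    rw [← mul_pow]; norm_num
  have h53 : (0:ℝ) < (5 / 3) ^ k := by positivity
  have hN1 : 3 / 50 * (5 / 3 : ℝ) ^ k ≤ N := by
    have h2 := mul_le_mul_of_nonneg_right h h53.le
    rw [mul_assoc N, h35, mul_one] at h2
    norm_num at h2 ⊢
    linarith
  have h32 : (2:ℝ) ^ (-5:ℝ) ≤ 3 / 50 := by
    rw [Real.rpow_neg (by norm_num)]
    norm_num
  have hlow : (2:ℝ) ^ (-5 + (1:ℝ) / 2 * k) ≤ N := by
    rw [Real.rpow_add (by norm_num)]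
    refine le_trans ?_ hN1
    exact mul_le_mul h32 hpow (by positivity) (by norm_num)
  have hexp : (t : ℝ) / 100 ≤ -5 + (1:ℝ) / 2 * k := by
    have h1 : (24 * k + 24 : ℝ) ≥ t := by exact_mod_cast hk1
    have h2 : (1000000:ℝ) ≤ t := by
      have h3 : 1000000 ≤ t := by norm_num at ht; exact ht
      exact_mod_cast h3
    linarith
  calc (2 : ℝ) ^ ((t : ℝ) / 200) * X.card ≤ (2 : ℝ) ^ ((t : ℝ) / 200) * (2 : ℝ) ^ ((t : ℝ) / 200) :=
        mul_le_mul_of_nonneg_left hXm (by positivity)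
    _ = (2 : ℝ) ^ ((t : ℝ) / 100) := by
        rw [← Real.rpow_add (by norm_num)]
        congr 1
        ring
    _ ≤ (2:ℝ) ^ (-5 + (1:ℝ) / 2 * k) := Real.rpow_le_rpow_of_exponent_le (by norm_num) hexp
    _ ≤ N := hlow


end Crux
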