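import Mathlib
import Pool.Agent.Helper343.Crux.Base
import Pool.Agent.Helper343.Crux.C2

set_option autoImplicit false

namespace Crux

open Finset

variable {V : Type*} [DecidableEq V]



/-! TARGET: prove these (keep the statements; add helper lemmas freely) -/


theorem place_big_pow (L : ℕ) (hL : 1000 ≤ L) : 2 ^ 22 * L ^ 6 ≤ 2 ^ L := by
  induction L, hL using Nat.le_induction with
  | base =>
    calc 2 ^ 22 * 1000 ^ 6 ≤ 2 ^ 82 := by norm_num
      _ ≤ 2 ^ 1000 := Nat.pow_le_pow_right (by norm_num) (by norm_num)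
  | succ L hL ih =>
    have h1 : (L + 1) ^ 6 ≤ 2 * L ^ 6 := by
      have h2 : 1000 * (L + 1) ≤ 1001 * L := by omega
      have h3 : (1000 * (L + 1)) ^ 6 ≤ (1001 * L) ^ 6 := Nat.pow_le_pow_left h2 6
      rw [mul_pow, mul_pow] at h3
      have h4 : (1001 : ℕ) ^ 6 ≤ 2 * 1000 ^ 6 := by norm_num
      have h5 : 1000 ^ 6 * (L + 1) ^ 6 ≤ 1000 ^ 6 * (2 * L ^ 6) := by
        calc 1000 ^ 6 * (L + 1) ^ 6 ≤ 1001 ^ 6 * L ^ 6 := h3
          _ ≤ (2 * 1000 ^ 6) * L ^ 6 := Nat.mul_le_mul_right _ h4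
          _ = 1000 ^ 6 * (2 * L ^ 6) := by ring
      exact Nat.le_of_mul_le_mul_left h5 (by norm_num)
    calc 2 ^ 22 * (L + 1) ^ 6 ≤ 2 ^ 22 * (2 * L ^ 6) := Nat.mul_le_mul_left _ h1
      _ = 2 * (2 ^ 22 * L ^ 6) := by ring
      _ ≤ 2 * 2 ^ L := Nat.mul_le_mul_left _ ih
      _ = 2 ^ (L + 1) := by ring

theorem place_big_sqrt (L m : ℕ) (hL : 1000 ≤ L) (hm : 2 ^ L ≤ m) :
    (3 * L + 2) * (16 * L) * (8 * L) * 3 ≤ Nat.sqrt m := by
  rw [Nat.le_sqrt']
  refine le_trans ?_ hm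
  refine le_trans ?_ (place_big_pow L hL)
  have h1 : (3 * L + 2) * (16 * L) * (8 * L) * 3 ≤ 1536 * L ^ 3 := by
    calc (3 * L + 2) * (16 * L) * (8 * L) * 3 ≤ (4 * L) * (16 * L) * (8 * L) * 3 := by
          gcongr
          omega
      _ = 1536 * L ^ 3 := by ring
  calc ((3 * L + 2) * (16 * L) * (8 * L) * 3) ^ 2 ≤ (1536 * L ^ 3) ^ 2 :=
        Nat.pow_le_pow_left h1 2
    _ = 2359296 * L ^ 6 := by ring
    _ ≤ 2 ^ 22 * L ^ 6 := Nat.mul_le_mul_right _ (by norm_num)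

theorem place_big_inter (F : SimpleGraph V) (X Y : Finset V)
    (hF : ∀ u v, F.Adj u v → u ∈ X ∧ v ∈ X) : A F Y ≤ A F (Y ∩ X) := by
  classical
  unfold A
  apply Finset.card_le_card
  intro p hp
  rw [Finset.mem_filter, Finset.mem_product] at hp ⊢
  obtain ⟨⟨h1, h2⟩, h3⟩ := hp
  obtain ⟨h4, h5⟩ := hF _ _ h3
  exact ⟨⟨Finset.mem_inter.2 ⟨h1, h4⟩, Finset.mem_inter.2 ⟨h2, h5⟩⟩, h3⟩

theorem place_big_one (F : SimpleGraph V) (Y : Finset V) (hY : Y.card ≤ 1) : A F Y = 0 := by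
  classical
  unfold A
  rw [Finset.card_eq_zero, Finset.filter_eq_empty_iff]
  intro p hp hadj
  rw [Finset.mem_product] at hp
  have := Finset.card_le_one.1 hY _ hp.1 _ hp.2
  exact hadj.ne this

theorem place_big_pow2 (L k : ℕ) (hL : 1 ≤ L) (h : (3 * L + 2) * (16 * L) ≤ k) :
    (2 : ℝ) ^ (3 * L + 2) ≤ (1 + 1 / (16 * (L : ℝ))) ^ k := by
  have hLr : (0 : ℝ) < L := by exact_mod_cast hL
  have h1 : (2 : ℝ) ≤ (1 + 1 / (16 * (L : ℝ))) ^ (16 * L) := by
    have h2 := one_add_mul_le_pow (a := 1 / (16 * (L : ℝ))) (by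
      have : (0 : ℝ) ≤ 1 / (16 * (L : ℝ)) := by positivity
      linarith) (16 * L)
    have h3 : (1 : ℝ) + ((16 * L : ℕ) : ℝ) * (1 / (16 * (L : ℝ))) = 2 := by
      push_cast
      field_simp
      norm_num
    rw [h3] at h2
    exact h2
  calc (2 : ℝ) ^ (3 * L + 2) ≤ ((1 + 1 / (16 * (L : ℝ))) ^ (16 * L)) ^ (3 * L + 2) :=
        pow_le_pow_left₀ (by norm_num) h1 _
    _ = (1 + 1 / (16 * (L : ℝ))) ^ ((3 * L + 2) * (16 * L)) := by
        rw [← pow_mul, mul_comm (16 * L)]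
    _ ≤ _ := pow_le_pow_right₀ (by
        have : (0 : ℝ) ≤ 1 / (16 * (L : ℝ)) := by positivity
        linarith) h

theorem place_big (F : SimpleGraph V) (X : Finset V) (hF : ∀ u v, F.Adj u v → u ∈ X ∧ v ∈ X)
    (D : ℝ) (hD : 0 < D) (hX : 2 ^ 1000 ≤ X.card)
    (hd : theta X.card * D * X.card ≤ A F X)
    (hsmall : ∀ Y ⊆ X, Y.Nonempty → Y.card < X.card → (A F Y : ℝ) < theta Y.card * D * Y.card) :
    (X.card : ℝ) ^ 2 ≤ ((cycIn F X).card : ℝ) := by
  classical
  set m := X.card with hm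
  have hm0 : m ≠ 0 := by
    have : 0 < 2 ^ 1000 := by positivity
    omega
  set L := Nat.log 2 m with hLdef
  have hL : 1000 ≤ L := Nat.le_log_of_pow_le (by norm_num) hX
  have hLm : 2 ^ L ≤ m := Nat.pow_log_le_self 2 hm0
  have hmL : m < 2 ^ (L + 1) := Nat.lt_pow_succ_log_self (by norm_num) m
  have hLr : (1000 : ℝ) ≤ L := by exact_mod_cast hL
  have hLp : (0 : ℝ) < L := by linarith
  have hmr : (0 : ℝ) < m := by
    have : 0 < m := Nat.pos_of_ne_zero hm0
    exact_mod_cast this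
  have hsq := place_big_sqrt L m hL hLm
  set q := Nat.sqrt m / 3 with hq
  have hq1 : (3 * L + 2) * (16 * L) * (8 * L) ≤ q := by
    rw [hq, Nat.le_div_iff_mul_le (by norm_num)]
    exact hsq
  set k := q / (8 * L) with hk
  have hk1 : (3 * L + 2) * (16 * L) ≤ k := by
    rw [hk, Nat.le_div_iff_mul_le (by omega)]
    exact hq1
  have h3q : 3 * q ≤ Nat.sqrt m := by rw [hq]; omega
  have hk3 : 3 ≤ k := by
    refine le_trans ?_ hk1
    have : 1 ≤ 16 * L := by omega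
    calc 3 ≤ (3 * L + 2) * 1 := by omega
      _ ≤ (3 * L + 2) * (16 * L) := Nat.mul_le_mul_left _ this
  have hkq : k ≤ q := Nat.div_le_self _ _
  have hqpos : 0 < q := by omega
  have hqr : (0 : ℝ) < q := by exact_mod_cast hqpos
  have hkqr : (k : ℝ) / q ≤ 1 / (8 * L) := by
    rw [div_le_div_iff₀ hqr (by positivity)]
    have := Nat.div_mul_le_self q (8 * L)
    have h2 : (k : ℝ) * (8 * L) ≤ q := by exact_mod_cast this
    linarith
  have htm : theta m = (1 - 1 / (2 * (L : ℝ))) / 2 := rfl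
  have hinvL : (1 : ℝ) / L ≤ 1 / 1000 := one_div_le_one_div_of_le (by norm_num) hLr
  have hinvL0 : (0 : ℝ) < 1 / L := by positivity
  have e2 : (1 : ℝ) / (2 * L) = 1 / L / 2 := by field_simp
  have e8 : (1 : ℝ) / (8 * L) = 1 / L / 8 := by field_simp
  have e16 : (1 : ℝ) / (16 * L) = 1 / L / 16 := by field_simp
  have hlam : 0 ≤ (1 - 1 / (L : ℝ)) / 2 * D := by
    apply mul_nonneg _ hD.le
    linarith
  have hthpos : 0 < theta m := by
    rw [htm, e2]; linarith
  have hApos : 0 < A F X := by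
    have : (0 : ℝ) < A F X := lt_of_lt_of_le (by positivity) hd
    exact_mod_cast this
  have key := many_sets F X hF k q hk3 hkq ((1 - 1 / (L : ℝ)) / 2 * D) (1 / (16 * L)) (1 / (8 * L))
    hlam (by positivity) (by rw [e8, e16]; linarith) (by rw [e8]; linarith)
    (by
      intro Y hY
      have h1 := place_big_inter F X Y hF
      have h1r : (A F Y : ℝ) ≤ A F (Y ∩ X) := by exact_mod_cast h1
      have hcard : (Y ∩ X).card ≤ Y.card := Finset.card_le_card Finset.inter_subset_left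
      have hcardr : ((Y ∩ X).card : ℝ) ≤ Y.card := by exact_mod_cast hcard
      by_cases h2 : (Y ∩ X).card ≤ 1
      · rw [place_big_one F _ h2] at h1r
        refine h1r.trans ?_
        push_cast
        positivity
      · push Not at h2
        have h3 : (Y ∩ X).card ^ 2 ≤ m := by
          calc (Y ∩ X).card ^ 2 ≤ (Nat.sqrt m) ^ 2 := Nat.pow_le_pow_left (by omega) 2
            _ ≤ m := Nat.sqrt_le' m
        have h4 : (Y ∩ X).card < m := by
          have h4a : (Y ∩ X).card * 2 ≤ (Y ∩ X).card ^ 2 := by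
            rw [sq]
            exact Nat.mul_le_mul_left _ (by omega)
          omega
        have h5 := hsmall (Y ∩ X) Finset.inter_subset_right (Finset.card_pos.1 (by omega)) h4
        have h6 : 1 ≤ Nat.log 2 (Y ∩ X).card := Nat.le_log_of_pow_le (by norm_num) (by
          rw [pow_one]; omega)
        have h7 : 2 * Nat.log 2 (Y ∩ X).card ≤ L := by
          apply Nat.le_log_of_pow_le (by norm_num)
          rw [mul_comm, pow_mul]
          refine le_trans (Nat.pow_le_pow_left (Nat.pow_log_le_self 2 (by omega)) 2) h3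
        have h8 : theta (Y ∩ X).card ≤ (1 - 1 / (L : ℝ)) / 2 := by
          unfold theta
          have h9 : (0 : ℝ) < 2 * (Nat.log 2 (Y ∩ X).card : ℝ) := by
            have : (1 : ℝ) ≤ (Nat.log 2 (Y ∩ X).card : ℝ) := by exact_mod_cast h6
            linarith
          have h10 : 2 * (Nat.log 2 (Y ∩ X).card : ℝ) ≤ L := by exact_mod_cast h7
          have h11 := one_div_le_one_div_of_le h9 h10
          linarith
        calc (A F Y : ℝ) ≤ A F (Y ∩ X) := h1r
          _ ≤ theta (Y ∩ X).card * D * (Y ∩ X).card := h5.le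
          _ ≤ (1 - 1 / (L : ℝ)) / 2 * D * (Y ∩ X).card := by gcongr
          _ ≤ (1 - 1 / (L : ℝ)) / 2 * D * Y.card := by gcongr)
    (by
      have h1 : (1 - 1 / (8 * (L : ℝ))) * (theta m * D * m) ≤
          (1 - 1 / (8 * (L : ℝ))) * A F X := by
        apply mul_le_mul_of_nonneg_left hd
        rw [e8]; linarith
      refine le_trans ?_ h1
      have h2 : (1 - 1 / (L : ℝ)) / 2 * D * (1 + (k : ℝ) / q) * m ≤
          (1 - 1 / (L : ℝ)) / 2 * D * (1 + 1 / (8 * L)) * m := by gcongr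
      refine h2.trans ?_
      rw [htm, e2, e8]
      have h3 : (1 - 1 / (L : ℝ)) / 2 * (1 + 1 / L / 8) ≤
          (1 - 1 / (L : ℝ) / 8) * ((1 - 1 / L / 2) / 2) := by nlinarith
      calc (1 - 1 / (L : ℝ)) / 2 * D * (1 + 1 / L / 8) * m
          = ((1 - 1 / (L : ℝ)) / 2 * (1 + 1 / L / 8)) * (D * m) := by ring
        _ ≤ ((1 - 1 / (L : ℝ) / 8) * ((1 - 1 / L / 2) / 2)) * (D * m) :=
            mul_le_mul_of_nonneg_right h3 (by positivity)
        _ = _ := by ring)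
    hApos
  set x : ℝ := 1 / (16 * L) with hxdef
  have hx0 : 0 < x := by positivity
  have hx1 : x ≤ 1 / 16000 := by rw [e16]; linarith
  have hNN : (0 : ℝ) ≤ ((cycIn F X).card : ℝ) := Nat.cast_nonneg _
  have hprod : (1 - x) ^ k * (1 + x) ^ k ≤ 1 := by
    rw [← mul_pow]
    apply pow_le_one₀
    · nlinarith
    · nlinarith
  have h1 : (1 - x) * (1 / (8 * L) - x) * (1 + x) ^ k ≤ ((cycIn F X).card : ℝ) := by
    calc (1 - x) * (1 / (8 * L) - x) * (1 + x) ^ k
        ≤ ((cycIn F X).card : ℝ) * (1 - x) ^ k * (1 + x) ^ k :=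
          mul_le_mul_of_nonneg_right key (by positivity)
      _ = ((cycIn F X).card : ℝ) * ((1 - x) ^ k * (1 + x) ^ k) := by ring
      _ ≤ ((cycIn F X).card : ℝ) * 1 := mul_le_mul_of_nonneg_left hprod hNN
      _ = _ := mul_one _
  refine le_trans ?_ h1
  have h2 := place_big_pow2 L k (by omega) hk1
  have h3 : 1 / (32 * (L : ℝ)) ≤ (1 - x) * (1 / (8 * L) - x) := by
    have e32 : (1 : ℝ) / (32 * L) = 1 / L / 32 := by field_simp
    rw [e32, e8, e16]
    nlinarith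
  have h4 : (32 * L : ℕ) ≤ 2 ^ L := by
    refine le_trans ?_ (place_big_pow L hL)
    have : L ≤ L ^ 6 := Nat.le_self_pow (by norm_num) L
    nlinarith
  have h4r : 32 * (L : ℝ) ≤ 2 ^ L := by exact_mod_cast h4
  have h5 : (m : ℝ) ^ 2 ≤ (2 ^ (L + 1)) ^ 2 := by
    have : (m : ℝ) ≤ 2 ^ (L + 1) := by exact_mod_cast hmL.le
    exact pow_le_pow_left₀ hmr.le this 2
  have h6 : (m : ℝ) ^ 2 ≤ 1 / (32 * (L : ℝ)) * 2 ^ (3 * L + 2) := by
    rw [one_div, ← div_eq_inv_mul, le_div_iff₀ (by positivity)]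
    calc (m : ℝ) ^ 2 * (32 * L) ≤ (2 ^ (L + 1)) ^ 2 * 2 ^ L := by gcongr
      _ = 2 ^ (3 * L + 2) := by
        rw [← pow_mul, ← pow_add]
        congr 1
        ring
  calc (m : ℝ) ^ 2 ≤ 1 / (32 * (L : ℝ)) * 2 ^ (3 * L + 2) := h6
    _ ≤ 1 / (32 * (L : ℝ)) * (1 + x) ^ k := by gcongr
    _ ≤ (1 - x) * (1 / (8 * L) - x) * (1 + x) ^ k := by gcongr


end Crux
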