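import Mathlib
import Pool.Agent.Helper343.Crux.Base

set_option autoImplicit false

namespace Crux

open Finset

variable {V : Type*} [DecidableEq V]



/-! TARGET: prove these (keep the statements; add helper lemmas freely) -/

theorem greedy (𝒰 : Finset (Finset V)) (L : Finset V) (K N : ℝ) (hK : 0 ≤ K)
    (hL : ∀ U ∈ 𝒰, (U ∩ L).Nonempty)
    (hstep : ∀ R ⊆ L, (R.card : ℝ) < N → ∃ X : Finset V, Disjoint X R ∧ (X ∩ L).Nonempty ∧
      K * X.card ≤ ({U ∈ 𝒰 | U ⊆ X}.card : ℝ)) :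
    K * N ≤ 𝒰.card := by
  obtain ⟨R, hR, hmax⟩ := Finset.exists_max_image
    (L.powerset.filter (fun R => K * (R.card : ℝ) ≤ ({U ∈ 𝒰 | U ∩ L ⊆ R}.card : ℝ)))
    (fun R => R.card) ⟨∅, by
      rw [Finset.mem_filter]
      refine ⟨Finset.empty_mem_powerset _, ?_⟩
      rw [Finset.card_empty, Nat.cast_zero, mul_zero]
      exact Nat.cast_nonneg _⟩
  rw [Finset.mem_filter, Finset.mem_powerset] at hR
  obtain ⟨hRL, hRK⟩ := hR
  have hRN : N ≤ (R.card : ℝ) := by
    by_contra hcon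
    push Not at hcon
    obtain ⟨X, hX1, hX2, hX3⟩ := hstep R hRL hcon
    have hdis : Disjoint R (X ∩ L) := by
      apply Disjoint.mono_right Finset.inter_subset_left hX1.symm
    have hcard : (R ∪ (X ∩ L)).card = R.card + (X ∩ L).card := Finset.card_union_of_disjoint hdis
    have hpos : 0 < (X ∩ L).card := Finset.card_pos.mpr hX2
    have hmem : R ∪ (X ∩ L) ∈ L.powerset.filter
        (fun R => K * (R.card : ℝ) ≤ ({U ∈ 𝒰 | U ∩ L ⊆ R}.card : ℝ)) := by
      rw [Finset.mem_filter, Finset.mem_powerset]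
      refine ⟨Finset.union_subset hRL Finset.inter_subset_right, ?_⟩
      have hdis2 : Disjoint {U ∈ 𝒰 | U ∩ L ⊆ R} {U ∈ 𝒰 | U ⊆ X} := by
        rw [Finset.disjoint_left]
        intro U h1 h2
        rw [Finset.mem_filter] at h1 h2
        obtain ⟨x, hx⟩ := hL U h1.1
        have hxR : x ∈ R := h1.2 hx
        have hxX : x ∈ X := h2.2 (Finset.mem_of_mem_inter_left hx)
        exact (Finset.disjoint_left.mp hX1) hxX hxR
      have hsub : {U ∈ 𝒰 | U ∩ L ⊆ R} ∪ {U ∈ 𝒰 | U ⊆ X} ⊆ {U ∈ 𝒰 | U ∩ L ⊆ R ∪ (X ∩ L)} := by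
        intro U hU
        rw [Finset.mem_union, Finset.mem_filter, Finset.mem_filter] at hU
        rw [Finset.mem_filter]
        rcases hU with ⟨h1, h2⟩ | ⟨h1, h2⟩
        · exact ⟨h1, h2.trans Finset.subset_union_left⟩
        · exact ⟨h1, (Finset.inter_subset_inter_right h2).trans Finset.subset_union_right⟩
      have hc := Finset.card_le_card hsub
      rw [Finset.card_union_of_disjoint hdis2] at hc
      have hc' : (({U ∈ 𝒰 | U ∩ L ⊆ R}.card : ℝ)) + ({U ∈ 𝒰 | U ⊆ X}.card : ℝ) ≤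
          ({U ∈ 𝒰 | U ∩ L ⊆ R ∪ (X ∩ L)}.card : ℝ) := by exact_mod_cast hc
      rw [hcard]
      have hXL : ((X ∩ L).card : ℝ) ≤ X.card := by
        exact_mod_cast Finset.card_le_card Finset.inter_subset_left
      have h5 : K * ((X ∩ L).card : ℝ) ≤ K * X.card := mul_le_mul_of_nonneg_left hXL hK
      push_cast
      nlinarith
    have := hmax _ hmem
    omega
  have h1 : ({U ∈ 𝒰 | U ∩ L ⊆ R}.card : ℝ) ≤ 𝒰.card := by
    exact_mod_cast Finset.card_filter_le _ _
  have h2 : K * N ≤ K * R.card := mul_le_mul_of_nonneg_left hRN hK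
  linarith


end Crux
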