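import Mathlib
import Pool.Agent.Helper343.Crux.Base

set_option autoImplicit false

namespace Crux

open Finset

variable {V : Type*} [DecidableEq V]



/-! TARGET: prove these (keep the statements; add helper lemmas freely) -/

open Classical in
theorem aux_rect (G : SimpleGraph V) (R S : Finset V) :
    ((R ×ˢ S).filter (fun p => G.Adj p.1 p.2)).card = ∑ v ∈ R, dg G S v := by
  rw [Finset.card_filter, Finset.sum_product]
  apply Finset.sum_congr rfl
  intro v _
  unfold dg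
  rw [Finset.card_filter]

theorem sum_dg (G : SimpleGraph V) (S : Finset V) : ∑ v ∈ S, dg G S v = A G S := by
  unfold A
  rw [aux_rect]

open Classical in
theorem aux_rect_swap (G : SimpleGraph V) (R S : Finset V) :
    ((S ×ˢ R).filter (fun p => G.Adj p.1 p.2)).card = ((R ×ˢ S).filter (fun p => G.Adj p.1 p.2)).card := by
  apply Finset.card_bij (fun p _ => (p.2, p.1))
  · rintro ⟨a, b⟩ h
    simp only [Finset.mem_filter, Finset.mem_product] at h ⊢
    exact ⟨⟨h.1.2, h.1.1⟩, h.2.symm⟩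
  · rintro ⟨a, b⟩ _ ⟨c, d⟩ _ h
    simp only [Prod.mk.injEq] at h ⊢
    exact ⟨h.2, h.1⟩
  · rintro ⟨a, b⟩ h
    simp only [Finset.mem_filter, Finset.mem_product] at h
    exact ⟨(b, a), by simp only [Finset.mem_filter, Finset.mem_product]; exact ⟨⟨h.1.2, h.1.1⟩, h.2.symm⟩, rfl⟩

theorem A_sdiff (G : SimpleGraph V) (S R : Finset V) (hR : R ⊆ S) :
    A G S ≤ A G (S \ R) + 2 * ∑ v ∈ R, dg G S v := by
  classical
  have h1 : (S ×ˢ S).filter (fun p => G.Adj p.1 p.2) ⊆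
      ((S \ R) ×ˢ (S \ R)).filter (fun p => G.Adj p.1 p.2) ∪
        ((R ×ˢ S).filter (fun p => G.Adj p.1 p.2) ∪ (S ×ˢ R).filter (fun p => G.Adj p.1 p.2)) := by
    rintro ⟨a, b⟩ h
    simp only [Finset.mem_union, Finset.mem_filter, Finset.mem_product, Finset.mem_sdiff] at h ⊢
    by_cases ha : a ∈ R
    · right; left; exact ⟨⟨ha, h.1.2⟩, h.2⟩
    · by_cases hb : b ∈ R
      · right; right; exact ⟨⟨h.1.1, hb⟩, h.2⟩
      · left; exact ⟨⟨⟨h.1.1, ha⟩, h.1.2, hb⟩, h.2⟩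
  have h2 := (Finset.card_le_card h1).trans (Finset.card_union_le _ _)
  have h3 := Finset.card_union_le ((R ×ˢ S).filter (fun p => G.Adj p.1 p.2))
    ((S ×ˢ R).filter (fun p => G.Adj p.1 p.2))
  have e1 := aux_rect G R S
  have e2 := aux_rect_swap G R S
  have e3 : A G S = ((S ×ˢ S).filter (fun p => G.Adj p.1 p.2)).card := by
    unfold A; congr
  have e4 : A G (S \ R) = (((S \ R) ×ˢ (S \ R)).filter (fun p => G.Adj p.1 p.2)).card := by
    unfold A; congr
  have e1' : ((R ×ˢ S).filter (fun p => G.Adj p.1 p.2)).card = ∑ v ∈ R, dg G S v := by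
    rw [← e1]
  have e2' : ((S ×ˢ R).filter (fun p => G.Adj p.1 p.2)).card = ∑ v ∈ R, dg G S v := by
    rw [← e1, ← e2]
  rw [e3, e4]
  omega

theorem A_Hf (G : SimpleGraph V) (S H : Finset V) (hH : H ⊆ S) : A G S = A (Hf G S H) S + A G H := by
  classical
  have e1 : A G S = ((S ×ˢ S).filter (fun p => G.Adj p.1 p.2)).card := by
    unfold A; congr
  have e2 : A (Hf G S H) S = ((S ×ˢ S).filter (fun p => (Hf G S H).Adj p.1 p.2)).card := by
    unfold A; congr
  have e3 : A G H = ((H ×ˢ H).filter (fun p => G.Adj p.1 p.2)).card := by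
    unfold A; congr
  rw [e1, e2, e3, ← Finset.card_union_of_disjoint]
  · congr 1
    ext ⟨a, b⟩
    have hHf : (Hf G S H).Adj a b ↔ G.Adj a b ∧ a ∈ S ∧ b ∈ S ∧ ¬ (a ∈ H ∧ b ∈ H) := Iff.rfl
    simp only [Finset.mem_union, Finset.mem_filter, Finset.mem_product]
    rw [hHf]
    constructor
    · rintro ⟨⟨ha, hb⟩, hab⟩
      by_cases h : a ∈ H ∧ b ∈ H
      · right; exact ⟨h, hab⟩
      · left; exact ⟨⟨ha, hb⟩, hab, ha, hb, h⟩
    · rintro (⟨⟨ha, hb⟩, hab, -⟩ | ⟨⟨ha, hb⟩, hab⟩)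
      · exact ⟨⟨ha, hb⟩, hab⟩
      · exact ⟨⟨hH ha, hH hb⟩, hab⟩
  · rw [Finset.disjoint_left]
    rintro ⟨a, b⟩ h1 h2
    simp only [Finset.mem_filter, Finset.mem_product] at h1 h2
    exact h1.2.2.2.2 h2.1


end Crux
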