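import Mathlib
import Pool.Agent.Helper343.Crux.Base
import Pool.Agent.Helper343.Crux.C2
import Pool.Agent.Helper343.Crux.J5
import Pool.Agent.Helper343.Crux.J6
import Pool.Agent.Helper343.Crux.J7
import Pool.Agent.Helper343.Crux.J8

set_option autoImplicit false

namespace Crux

open Finset

variable {V : Type*} [DecidableEq V]

theorem theta_ge (m : ℕ) : 1 / 4 ≤ theta m := by
  unfold theta
  rcases Nat.eq_zero_or_pos (Nat.log 2 m) with h | h
  · rw [h]; norm_num
  · have h1 : (1 : ℝ) ≤ (Nat.log 2 m : ℝ) := by exact_mod_cast h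
    have h2 : 1 / (2 * (Nat.log 2 m : ℝ)) ≤ 1 / 2 := by
      apply one_div_le_one_div_of_le (by norm_num)
      linarith
    linarith

theorem theta_le (m : ℕ) : theta m ≤ 1 / 2 := by
  unfold theta
  have : 0 ≤ 1 / (2 * (Nat.log 2 m : ℝ)) := by positivity
  linarith

theorem theta_ge' (m : ℕ) (hm : 32 ≤ m) : 9 / 20 ≤ theta m := by
  unfold theta
  have h : 5 ≤ Nat.log 2 m := by
    have : Nat.log 2 32 ≤ Nat.log 2 m := Nat.log_mono_right hm
    have h2 : Nat.log 2 32 = 5 := by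
      rw [show (32:ℕ) = 2 ^ 5 by norm_num, Nat.log_pow (by norm_num)]
    omega
  have h1 : (5 : ℝ) ≤ (Nat.log 2 m : ℝ) := by exact_mod_cast h
  have h2 : 1 / (2 * (Nat.log 2 m : ℝ)) ≤ 1 / 10 := by
    apply one_div_le_one_div_of_le (by norm_num)
    linarith
  linarith

theorem place (G : SimpleGraph V) (X : Finset V) (D : ℝ) (hD : 0 < D) (t : ℕ) (ht : 10 ^ 6 ≤ t)
    (hsmall : ∀ Y ⊆ X, Y.Nonempty → Y.card < t → (A G Y : ℝ) < D / 5 * Y.card)
    (hX : X.Nonempty) (hd : theta X.card * D * X.card ≤ A G X)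
    (hmin : ∀ Y ⊆ X, Y.Nonempty → Y.card < X.card → (A G Y : ℝ) < theta Y.card * D * Y.card) :
    (2 : ℝ) ^ ((t : ℝ) / 200) * X.card ≤ ((cycIn G X).card : ℝ) := by
  classical
  have hXc : (0 : ℝ) < X.card := by exact_mod_cast hX.card_pos
  have hXt : t ≤ X.card := by
    by_contra h
    push Not at h
    have h1 := hsmall X (subset_refl _) hX h
    have h2 := theta_ge X.card
    have h3 : 1 / 4 * (D * X.card) ≤ theta X.card * (D * X.card) :=
      mul_le_mul_of_nonneg_right h2 (by positivity)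
    have h4 : 0 < D * X.card := by positivity
    nlinarith
  have hF : ∀ u v, (Rs G X).Adj u v → u ∈ X ∧ v ∈ X := fun u v h => ⟨h.2.1, h.2.2⟩
  have hAF : A (Rs G X) X = A G X := by rw [A_Rs, Finset.inter_self]
  have hsub : ((cycIn (Rs G X) X).card : ℝ) ≤ ((cycIn G X).card : ℝ) := by
    exact_mod_cast Finset.card_le_card (cycIn_mono (Rs_le G X) X)
  by_cases hc : (X.card : ℝ) ≤ (2 : ℝ) ^ ((t : ℝ) / 200)
  · refine le_trans (place_small (Rs G X) X hF D hD t ht ?_ hX hc ?_) hsub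
    · intro Y hY
      rw [A_Rs]
      rcases (Y ∩ X).eq_empty_or_nonempty with h | h
      · rw [h]
        have : A G (∅ : Finset V) = 0 := by simp [A]
        rw [this]
        push_cast
        positivity
      · have h1 := hsmall (Y ∩ X) Finset.inter_subset_right h
          (lt_of_le_of_lt (Finset.card_le_card Finset.inter_subset_left) hY)
        have h2 : ((Y ∩ X).card : ℝ) ≤ Y.card := by
          exact_mod_cast Finset.card_le_card Finset.inter_subset_left
        have h3 : D / 5 * ((Y ∩ X).card : ℝ) ≤ D / 5 * Y.card :=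
          mul_le_mul_of_nonneg_left h2 (by positivity)
        linarith
    · rw [hAF]
      have h2 := theta_ge' X.card (by omega)
      have h3 : 9 / 20 * (D * X.card) ≤ theta X.card * (D * X.card) :=
        mul_le_mul_of_nonneg_right h2 (by positivity)
      linarith
  · push Not at hc
    have hbig : 2 ^ 1000 ≤ X.card := by
      have h1 : ((2 : ℝ) ^ (1000 : ℝ)) ≤ (2 : ℝ) ^ ((t : ℝ) / 200) := by
        apply Real.rpow_le_rpow_of_exponent_le (by norm_num)
        have : (10 ^ 6 : ℝ) ≤ t := by exact_mod_cast ht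
        linarith
      have h2 : ((2 : ℝ) ^ (1000 : ℝ)) = ((2 ^ 1000 : ℕ) : ℝ) := by
        rw [Nat.cast_pow, ← Real.rpow_natCast]
        norm_num
      have h3 : ((2 ^ 1000 : ℕ) : ℝ) ≤ (X.card : ℝ) := by
        rw [← h2]
        exact (h1.trans hc.le)
      exact_mod_cast h3
    have h4 := place_big (Rs G X) X hF D hD hbig (by rw [hAF]; exact hd)
      (by
        intro Y hY hYn hYc
        rw [A_Rs, Finset.inter_eq_left.mpr hY]
        exact hmin Y hY hYn hYc)
    calc (2 : ℝ) ^ ((t : ℝ) / 200) * X.card ≤ X.card * X.card :=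
          mul_le_mul_of_nonneg_right hc.le hXc.le
      _ = (X.card : ℝ) ^ 2 := by ring
      _ ≤ _ := h4
      _ ≤ _ := hsub

theorem exists_place (G : SimpleGraph V) (Z : Finset V) (D : ℝ) (hD : 0 < D) (t : ℕ) (ht : 10 ^ 6 ≤ t)
    (hsmall : ∀ Y ⊆ Z, Y.Nonempty → Y.card < t → (A G Y : ℝ) < D / 5 * Y.card)
    (hZ : Z.Nonempty) (hd : 1 / 2 * D * Z.card ≤ A G Z) :
    ∃ X ⊆ Z, X.Nonempty ∧ 0 < A G X ∧
      (2 : ℝ) ^ ((t : ℝ) / 200) * X.card ≤ ((cycIn G X).card : ℝ) := by
  classical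
  obtain ⟨X, hX, hXmin⟩ := Finset.exists_min_image
    (Z.powerset.filter (fun X => X.Nonempty ∧ theta X.card * D * X.card ≤ A G X)) Finset.card
    ⟨Z, by
      rw [Finset.mem_filter, Finset.mem_powerset]
      refine ⟨subset_refl _, hZ, ?_⟩
      have h1 := theta_le Z.card
      have h2 : theta Z.card * (D * Z.card) ≤ 1 / 2 * (D * Z.card) :=
        mul_le_mul_of_nonneg_right h1 (by positivity)
      linarith⟩
  rw [Finset.mem_filter, Finset.mem_powerset] at hX
  obtain ⟨hXZ, hXn, hXd⟩ := hX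
  have hXc : (0 : ℝ) < X.card := by exact_mod_cast hXn.card_pos
  refine ⟨X, hXZ, hXn, ?_, ?_⟩
  · have h1 := theta_ge X.card
    have h2 : 1 / 4 * (D * X.card) ≤ theta X.card * (D * X.card) :=
      mul_le_mul_of_nonneg_right h1 (by positivity)
    have h3 : 0 < D * X.card := by positivity
    have h4 : (0 : ℝ) < A G X := by nlinarith
    exact_mod_cast h4
  · apply place G X D hD t ht (fun Y hY => hsmall Y (hY.trans hXZ)) hXn hXd
    intro Y hY hYn hYc
    by_contra hcon
    push Not at hcon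
    have := hXmin Y (by
      rw [Finset.mem_filter, Finset.mem_powerset]
      exact ⟨hY.trans hXZ, hYn, hcon⟩)
    omega

theorem main_prop (G : SimpleGraph V) (S : Finset V) (D : ℝ) (hD : 0 < D) (t : ℕ) (ht : 10 ^ 6 ≤ t)
    (hS : S.Nonempty) (hAS : (A G S : ℝ) = D * S.card)
    (hP : ∀ T ⊆ S, T.Nonempty → (A G T : ℝ) ^ 2 * S.card ≤ (A G S : ℝ) ^ 2 * T.card)
    (hsmall : ∀ Y ⊆ S, Y.Nonempty → Y.card < t → (A G Y : ℝ) < D / 5 * Y.card) :
    (S.card : ℝ) * (2 : ℝ) ^ ((t : ℝ) / 400) ≤ ((cycIn G S).card : ℝ) := by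
  classical
  have hSc : (0 : ℝ) < S.card := by exact_mod_cast hS.card_pos
  set H := S.filter (fun v => 100 * D < (dg G S v : ℝ)) with hH
  have hHS : H ⊆ S := Finset.filter_subset _ _
  -- number of hubs
  have hHc : (H.card : ℝ) * 100 ≤ S.card := by
    have h1 : ∑ v ∈ H, (100 * D) ≤ ∑ v ∈ H, (dg G S v : ℝ) := by
      apply Finset.sum_le_sum
      intro v hv
      rw [hH, Finset.mem_filter] at hv
      exact hv.2.le
    have h2 : ∑ v ∈ H, (dg G S v : ℝ) ≤ ∑ v ∈ S, (dg G S v : ℝ) :=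
      Finset.sum_le_sum_of_subset_of_nonneg hHS (fun _ _ _ => by positivity)
    have h3 : ∑ v ∈ S, (dg G S v : ℝ) = D * S.card := by
      rw [← hAS, ← sum_dg G S]; push_cast; rfl
    rw [Finset.sum_const, nsmul_eq_mul] at h1
    have h4 : D * (H.card * 100) ≤ D * S.card := by linarith
    exact le_of_mul_le_mul_left h4 hD
  have hAH : (A G H : ℝ) ≤ D * S.card / 10 := by
    rcases H.eq_empty_or_nonempty with h | h
    · rw [h]
      have : A G (∅ : Finset V) = 0 := by simp [A]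
      rw [this]
      push_cast
      positivity
    · have h1 := hP H hHS h
      rw [hAS] at h1
      have h2 : (A G H : ℝ) ^ 2 ≤ (D * S.card / 10) ^ 2 := by
        have h3 : (A G H : ℝ) ^ 2 * S.card ≤ (D * S.card / 10) ^ 2 * S.card := by
          calc (A G H : ℝ) ^ 2 * S.card ≤ (D * S.card) ^ 2 * H.card := h1
            _ ≤ (D * S.card) ^ 2 * (S.card / 100) := by
              apply mul_le_mul_of_nonneg_left _ (by positivity)
              linarith
            _ = _ := by ring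
        exact le_of_mul_le_mul_right h3 hSc
      exact le_of_sq_le_sq h2 (by positivity)
  set G0 := Hf G S H with hG0
  have hG0le : G0 ≤ G := Hf_le G S H
  have hAG0 : 9 / 10 * (D * S.card) ≤ (A G0 S : ℝ) := by
    have h1 := A_Hf G S H hHS
    have h2 : (A G S : ℝ) = A G0 S + A G H := by exact_mod_cast h1
    rw [hAS] at h2
    linarith
  set K : ℝ := (2 : ℝ) ^ ((t : ℝ) / 200) with hK
  have hK0 : 0 ≤ K := by positivity
  have hmain : K * ((S.card : ℝ) / 1000) ≤ ((cycIn G0 S).card : ℝ) := by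
    apply greedy (cycIn G0 S) (S \ H) K _ hK0
    · intro U hU
      exact cycIn_Hf G S H U hU
    · intro R hR hRc
      have hRS : R ⊆ S := hR.trans Finset.sdiff_subset
      have h1 := A_sdiff G0 S R hRS
      have h2 : ∑ v ∈ R, (dg G0 S v : ℝ) ≤ ∑ v ∈ R, (100 * D) := by
        apply Finset.sum_le_sum
        intro v hv
        have h3 : dg G0 S v ≤ dg G S v := by
          unfold dg
          apply Finset.card_le_card
          intro u hu
          rw [Finset.mem_filter] at hu ⊢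
          exact ⟨hu.1, hG0le hu.2⟩
        have h4 : ¬ (100 * D < (dg G S v : ℝ)) := by
          intro h5
          have := (Finset.mem_sdiff.mp (hR hv)).2
          exact this (by rw [hH, Finset.mem_filter]; exact ⟨hRS hv, h5⟩)
        push Not at h4
        have h6 : (dg G0 S v : ℝ) ≤ dg G S v := by exact_mod_cast h3
        linarith
      rw [Finset.sum_const, nsmul_eq_mul] at h2
      have h3 : (A G0 S : ℝ) ≤ A G0 (S \ R) + 2 * ∑ v ∈ R, (dg G0 S v : ℝ) := by
        exact_mod_cast h1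
      have h4 : 7 / 10 * (D * S.card) ≤ (A G0 (S \ R) : ℝ) := by
        have h5 : (R.card : ℝ) * (100 * D) ≤ (S.card / 1000) * (100 * D) :=
          mul_le_mul_of_nonneg_right hRc.le (by positivity)
        nlinarith
      have hZn : (S \ R).Nonempty := by
        rw [Finset.nonempty_iff_ne_empty]
        intro h
        rw [h] at h4
        have : A G0 (∅ : Finset V) = 0 := by simp [A]
        rw [this] at h4
        have : 0 < D * S.card := by positivity
        push_cast at h4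
        linarith
      obtain ⟨X, hXZ, hXn, hXA, hXc⟩ := exists_place G0 (S \ R) D hD t ht
        (by
          intro Y hY hYn hYt
          have h5 := hsmall Y (hY.trans Finset.sdiff_subset) hYn hYt
          have h6 : (A G0 Y : ℝ) ≤ A G Y := by exact_mod_cast A_mono_graph hG0le Y
          linarith) hZn
        (by
          have h5 : ((S \ R).card : ℝ) ≤ S.card := by
            exact_mod_cast Finset.card_le_card Finset.sdiff_subset
          have h6 : D * ((S \ R).card : ℝ) ≤ D * S.card := mul_le_mul_of_nonneg_left h5 hD.le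
          have h7 : 0 ≤ D * (S.card : ℝ) := by positivity
          linarith)
      refine ⟨X, ?_, ?_, ?_⟩
      · rw [Finset.disjoint_left]
        intro v hv
        exact (Finset.mem_sdiff.mp (hXZ hv)).2
      · unfold A at hXA
        obtain ⟨e, he⟩ := Finset.card_pos.mp hXA
        rw [Finset.mem_filter, Finset.mem_product] at he
        obtain ⟨⟨h5, h6⟩, h7⟩ := he
        have h8 : e.1 ∈ S ∧ e.2 ∈ S ∧ ¬ (e.1 ∈ H ∧ e.2 ∈ H) := ⟨h7.2.1, h7.2.2.1, h7.2.2.2⟩
        by_cases h9 : e.1 ∈ H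
        · have h10 : e.2 ∉ H := fun h => h8.2.2 ⟨h9, h⟩
          exact ⟨e.2, Finset.mem_inter.mpr ⟨h6, Finset.mem_sdiff.mpr ⟨h8.2.1, h10⟩⟩⟩
        · exact ⟨e.1, Finset.mem_inter.mpr ⟨h5, Finset.mem_sdiff.mpr ⟨h8.1, h9⟩⟩⟩
      · refine hXc.trans ?_
        have h5 : cycIn G0 X ⊆ {U ∈ cycIn G0 S | U ⊆ X} := by
          intro U hU
          rw [Finset.mem_filter]
          refine ⟨cycIn_subset G0 (hXZ.trans Finset.sdiff_subset) hU, ?_⟩
          unfold cycIn at hU
          exact Finset.mem_powerset.mp (Finset.mem_filter.mp hU).1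
        exact_mod_cast Finset.card_le_card h5
  have hfin : ((cycIn G0 S).card : ℝ) ≤ ((cycIn G S).card : ℝ) := by
    exact_mod_cast Finset.card_le_card (cycIn_mono hG0le S)
  have hnum : (1000 : ℝ) ≤ (2 : ℝ) ^ ((t : ℝ) / 400) := by
    have h1 : (2 : ℝ) ^ (10 : ℝ) ≤ (2 : ℝ) ^ ((t : ℝ) / 400) := by
      apply Real.rpow_le_rpow_of_exponent_le (by norm_num)
      have : (10 ^ 6 : ℝ) ≤ t := by exact_mod_cast ht
      linarith
    have h2 : (2 : ℝ) ^ (10 : ℝ) = 1024 := by
      rw [show (10 : ℝ) = ((10 : ℕ) : ℝ) by norm_num, Real.rpow_natCast]; norm_num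
    linarith
  have hsq : (2 : ℝ) ^ ((t : ℝ) / 400) * (2 : ℝ) ^ ((t : ℝ) / 400) = K := by
    rw [hK, ← Real.rpow_add (by norm_num)]
    congr 1
    ring
  calc (S.card : ℝ) * (2 : ℝ) ^ ((t : ℝ) / 400)
      = (2 : ℝ) ^ ((t : ℝ) / 400) * 1000 * ((S.card : ℝ) / 1000) := by ring
    _ ≤ (2 : ℝ) ^ ((t : ℝ) / 400) * (2 : ℝ) ^ ((t : ℝ) / 400) * ((S.card : ℝ) / 1000) := by
        apply mul_le_mul_of_nonneg_right _ (by positivity)
        exact mul_le_mul_of_nonneg_left hnum (by positivity)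
    _ = K * ((S.card : ℝ) / 1000) := by rw [hsq]
    _ ≤ _ := hmain
    _ ≤ _ := hfin

theorem reduction [Fintype V] [Nonempty V] (G : SimpleGraph V) (D : ℝ) (hD : 10 ^ 8 ≤ D)
    (hAV : (A G univ : ℝ) = D * Fintype.card V) (t : ℕ)
    (hsmall : ∀ Y : Finset V, Y.Nonempty → D * Y.card ≤ 5 * A G Y → t ≤ Y.card) :
    (Fintype.card V : ℝ) * (2 : ℝ) ^ ((1 / 800 : ℝ) * (t : ℝ)) ≤ ((cycIn G univ).card : ℝ) := by
  classical
  have hD' : (100000000 : ℝ) ≤ D := by norm_num at hD; exact hD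
  clear hD
  have hD0 : 0 < D := by linarith
  have hn : (0 : ℝ) < Fintype.card V := by exact_mod_cast Fintype.card_pos
  obtain ⟨S, hS, hSmax⟩ := Finset.exists_max_image
    ((univ : Finset (Finset V)).filter (fun S => S.Nonempty)) (fun S => (A G S : ℝ) ^ 2 / S.card)
    ⟨univ, by simp [Finset.univ_nonempty]⟩
  rw [Finset.mem_filter] at hS
  have hSn := hS.2
  have hSc : (0 : ℝ) < S.card := by exact_mod_cast hSn.card_pos
  have hSV : (S.card : ℝ) ≤ Fintype.card V := by exact_mod_cast Finset.card_le_univ S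
  obtain ⟨D1, hD1⟩ : ∃ D1 : ℝ, D1 = A G S / S.card := ⟨_, rfl⟩
  have hD1n : 0 ≤ D1 := by rw [hD1]; exact div_nonneg (Nat.cast_nonneg _) (Nat.cast_nonneg _)
  have hAS : (A G S : ℝ) = D1 * S.card := by rw [hD1, div_mul_cancel₀ _ hSc.ne']
  clear hD1
  have hmaxV : (A G univ : ℝ) ^ 2 / Fintype.card V ≤ (A G S : ℝ) ^ 2 / S.card := by
    have h0 := hSmax univ (by rw [Finset.mem_filter]; exact ⟨Finset.mem_univ _, Finset.univ_nonempty⟩)
    rw [Finset.card_univ] at h0
    exact h0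
  have hDn : (Fintype.card V : ℝ) * D ^ 2 ≤ S.card * D1 ^ 2 := by
    rw [hAV, hAS] at hmaxV
    have e0 : ∀ a b : ℝ, b ≠ 0 → (a * b) ^ 2 / b = b * a ^ 2 := by
      intro a b hb
      rw [div_eq_iff hb]
      ring
    have e1 := e0 D (Fintype.card V : ℝ) hn.ne'
    have e2 := e0 D1 (S.card : ℝ) hSc.ne'
    rw [e1, e2] at hmaxV
    exact hmaxV
  have hDD1 : D ≤ D1 := by
    have h1 : (Fintype.card V : ℝ) * D ^ 2 ≤ Fintype.card V * D1 ^ 2 :=
      hDn.trans (mul_le_mul_of_nonneg_right hSV (by positivity))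
    have h2 : D ^ 2 ≤ D1 ^ 2 := le_of_mul_le_mul_left h1 hn
    exact le_of_sq_le_sq h2 hD1n
  have hD10 : 0 < D1 := by linarith
  set t1 := max t ⌈D1 / 5⌉₊ with ht1
  have ht1D : D1 / 5 ≤ t1 := by
    have h1 : D1 / 5 ≤ (⌈D1 / 5⌉₊ : ℝ) := Nat.le_ceil _
    have h2 : ((⌈D1 / 5⌉₊ : ℕ) : ℝ) ≤ (t1 : ℝ) := by exact_mod_cast le_max_right _ _
    linarith
  have ht1t : (t : ℝ) ≤ t1 := by exact_mod_cast le_max_left _ _
  have ht16 : 10 ^ 6 ≤ t1 := by
    have : (10 ^ 6 : ℝ) ≤ (t1 : ℝ) := by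
      have : (10 ^ 6 : ℝ) ≤ D1 / 5 := by norm_num; linarith
      linarith
    exact_mod_cast this
  have h1 := main_prop G S D1 hD10 t1 ht16 hSn hAS
    (by
      intro T hT hTn
      have hTc : (0 : ℝ) < T.card := by exact_mod_cast hTn.card_pos
      have := hSmax T (by rw [Finset.mem_filter]; exact ⟨Finset.mem_univ _, hTn⟩)
      rw [div_le_div_iff₀ hTc hSc] at this
      exact this)
    (by
      intro Y hY hYn hYt
      by_contra hcon
      push Not at hcon
      have hYc : (0 : ℝ) < Y.card := by exact_mod_cast hYn.card_pos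
      have h2 : t ≤ Y.card := by
        apply hsmall Y hYn
        have : D * Y.card ≤ D1 * Y.card := mul_le_mul_of_nonneg_right hDD1 hYc.le
        linarith
      have h3 : ⌈D1 / 5⌉₊ ≤ Y.card := by
        rw [Nat.ceil_le]
        have h4 := A_le G Y
        have h5 : D1 / 5 * Y.card ≤ (Y.card - 1) * Y.card := by linarith
        have h6 : D1 / 5 ≤ Y.card - 1 := le_of_mul_le_mul_right h5 hYc
        linarith
      have h4 : t1 ≤ Y.card := max_le h2 h3
      omega)
  have h2 : ((cycIn G S).card : ℝ) ≤ ((cycIn G univ).card : ℝ) := by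
    exact_mod_cast Finset.card_le_card (cycIn_subset G (Finset.subset_univ S))
  refine le_trans ?_ (h1.trans h2)
  -- numeric part
  have h3 : (2 : ℝ) ^ ((1 / 800 : ℝ) * t) * ((2 : ℝ) ^ (D1 / 8000)) ^ 2 ≤ (2 : ℝ) ^ ((t1 : ℝ) / 400) := by
    rw [← Real.rpow_natCast ((2 : ℝ) ^ (D1 / 8000)) 2, ← Real.rpow_mul (by norm_num),
      ← Real.rpow_add (by norm_num)]
    apply Real.rpow_le_rpow_of_exponent_le (by norm_num)
    push_cast
    linarith
  have h4 : D1 / D ≤ (2 : ℝ) ^ (D1 / 8000) := by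
    have h5 : D1 / 8000 * Real.log 2 + 1 ≤ (2 : ℝ) ^ (D1 / 8000) := by
      rw [Real.rpow_def_of_pos (by norm_num)]
      have := Real.add_one_le_exp (Real.log 2 * (D1 / 8000))
      linarith
    have h6 : (1 / 2 : ℝ) ≤ Real.log 2 := by
      have := Real.log_two_gt_d9
      linarith
    have h7 : D1 / D ≤ D1 / 8000 * (1 / 2) := by
      rw [div_le_iff₀ hD0]
      have : D1 * 16000 ≤ D1 * D := mul_le_mul_of_nonneg_left (by linarith) hD1n
      linarith
    have h8 : D1 / 8000 * (1 / 2) ≤ D1 / 8000 * Real.log 2 :=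
      mul_le_mul_of_nonneg_left h6 (by positivity)
    linarith
  have h5 : (Fintype.card V : ℝ) ≤ S.card * (D1 / D) ^ 2 := by
    rw [div_pow, mul_div_assoc', le_div_iff₀ (by positivity)]
    exact hDn
  have h6 : (D1 / D) ^ 2 ≤ ((2 : ℝ) ^ (D1 / 8000)) ^ 2 := by
    apply pow_le_pow_left₀ (by positivity) h4
  calc (Fintype.card V : ℝ) * (2 : ℝ) ^ ((1 / 800 : ℝ) * (t : ℝ))
      ≤ (S.card * ((2 : ℝ) ^ (D1 / 8000)) ^ 2) * (2 : ℝ) ^ ((1 / 800 : ℝ) * (t : ℝ)) := by
        apply mul_le_mul_of_nonneg_right _ (by positivity)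
        exact h5.trans (mul_le_mul_of_nonneg_left h6 hSc.le)
    _ = S.card * ((2 : ℝ) ^ ((1 / 800 : ℝ) * t) * ((2 : ℝ) ^ (D1 / 8000)) ^ 2) := by ring
    _ ≤ _ := mul_le_mul_of_nonneg_left h3 hSc.le

end Crux
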