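import Mathlib
import Pool.Agent.Helper343.Crux.Base
import Pool.Agent.Helper343.Crux.C3

set_option autoImplicit false

namespace Crux

open Finset

variable {V : Type*} [DecidableEq V]

theorem A_eq_edges [Fintype V] (G : SimpleGraph V) (S : Finset V) :
    (A G S : ℝ) = 2 * ({e ∈ G.edgeSet | ∀ v ∈ e, v ∈ S}.ncard : ℝ) := by
  classical
  have h1 : {e ∈ G.edgeSet | ∀ v ∈ e, v ∈ S} = (Rs G S).edgeSet := by
    ext e
    induction e using Sym2.ind with
    | _ a b =>
      rw [Set.mem_setOf_eq, SimpleGraph.mem_edgeSet, SimpleGraph.mem_edgeSet]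
      constructor
      · rintro ⟨h, h'⟩
        exact ⟨h, h' a (Sym2.mem_mk_left a b), h' b (Sym2.mem_mk_right a b)⟩
      · rintro ⟨h, h2, h3⟩
        refine ⟨h, fun v hv => ?_⟩
        rcases Sym2.mem_iff.mp hv with rfl | rfl
        · exact h2
        · exact h3
  have h2 : (Rs G S).edgeSet.ncard = (Rs G S).edgeFinset.card := by
    rw [← SimpleGraph.coe_edgeFinset, Set.ncard_coe_finset]
  have h3 := (Rs G S).sum_degrees_eq_twice_card_edges
  have h4 : A G S = ∑ v, (Rs G S).degree v := by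
    have h5 : A G S = A (Rs G S) univ := by rw [A_Rs, Finset.univ_inter]
    rw [h5, ← sum_dg]
    apply Finset.sum_congr rfl
    intro v _
    rw [dg, ← SimpleGraph.card_neighborFinset_eq_degree]
    congr 1
    ext u
    rw [Finset.mem_filter, SimpleGraph.mem_neighborFinset]
    simp
  rw [h1, h2, h4, h3]
  push_cast
  rfl

theorem cyc_ncard [Fintype V] (G : SimpleGraph V) :
    (Set.ncard {U : Finset V | ∃ u : V, ∃ p : G.Walk u u,
            p.IsCycle ∧ p.support.toFinset = U}) = (cycIn G univ).card := by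
  classical
  rw [← Set.ncard_coe_finset]
  congr 1
  ext U
  simp [cycIn, cyc]

theorem final :
    ∃ c : ℝ, 0 < c ∧ ∃ d₀ : ℝ, ∀ (V : Type) [Fintype V] [DecidableEq V] (G : SimpleGraph V),
      (2 * (G.edgeSet.ncard : ℝ)) / (Fintype.card V : ℝ) ≥ d₀ →
      ∀ t : ℕ,
        (∀ S : Finset V, S.Nonempty →
          5 * ((2 * ({e ∈ G.edgeSet | ∀ v ∈ e, v ∈ S}.ncard : ℝ)) / (S.card : ℝ))
            ≥ (2 * (G.edgeSet.ncard : ℝ)) / (Fintype.card V : ℝ) →
          t ≤ S.card) →
        ((Set.ncard {U : Finset V | ∃ u : V, ∃ p : G.Walk u u,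
            p.IsCycle ∧ p.support.toFinset = U} : ℕ) : ℝ)
          ≥ (Fintype.card V : ℝ) * (2 : ℝ) ^ (c * (t : ℝ)) := by
  refine ⟨1 / 800, by norm_num, 10 ^ 8, ?_⟩
  intro V _ _ G hd t ht
  have hne : Nonempty V := by
    by_contra h
    rw [not_nonempty_iff] at h
    have : Fintype.card V = 0 := Fintype.card_eq_zero
    rw [this] at hd
    norm_num at hd
  have hn : (0 : ℝ) < Fintype.card V := by exact_mod_cast Fintype.card_pos
  have hE : {e ∈ G.edgeSet | ∀ v ∈ e, v ∈ (univ : Finset V)} = G.edgeSet := by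
    ext e; simp
  have hAV : (A G univ : ℝ) = (2 * (G.edgeSet.ncard : ℝ)) / (Fintype.card V : ℝ) * Fintype.card V := by
    rw [A_eq_edges, hE, div_mul_cancel₀ _ hn.ne']
  have h := reduction G _ hd hAV t (by
    intro Y hY hYA
    apply ht Y hY
    have hYc : (0 : ℝ) < Y.card := by exact_mod_cast hY.card_pos
    rw [A_eq_edges] at hYA
    rw [ge_iff_le, ← mul_div_assoc, le_div_iff₀ hYc]
    exact hYA)
  rw [cyc_ncard]
  exact h

end Crux
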